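import Mathlib

set_option autoImplicit false

namespace Run7.h196.Camp

open Complex Metric Set
open scoped ComplexConjugate

/-- `log ((1+T)/(1-T)) = 2 arsinh (T / sqrt (1 - T^2))`. -/
theorem two_arsinh (T : ℝ) (h0 : 0 ≤ T) (h1 : T < 1) :
    2 * Real.arsinh (T / Real.sqrt (1 - T ^ 2)) = Real.log ((1 + T) / (1 - T)) := by
  have hp : 0 < 1 - T ^ 2 := by nlinarith
  set s := Real.sqrt (1 - T ^ 2) with hs
  have hs0 : 0 < s := Real.sqrt_pos.2 hp
  have hs2 : s ^ 2 = 1 - T ^ 2 := Real.sq_sqrt hp.le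
  have h2 : Real.sqrt (1 + (T / s) ^ 2) = 1 / s := by
    have : 1 + (T / s) ^ 2 = (1 / s) ^ 2 := by
      rw [div_pow, div_pow, hs2]; field_simp; ring
    rw [this, Real.sqrt_sq (by positivity)]
  have h3 : Real.arsinh (T / s) = Real.log ((1 + T) / s) := by
    rw [Real.arsinh, h2]; congr 1; ring
  rw [h3]
  have h4 : (1 + T) / (1 - T) = ((1 + T) / s) ^ 2 := by
    rw [div_pow, hs2]
    have : (1 : ℝ) - T ≠ 0 := by linarith
    have : (1 : ℝ) - T ^ 2 ≠ 0 := hp.ne'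
    field_simp
    ring
  rw [h4, Real.log_pow]
  push_cast
  ring

/-- Distortion estimate in a class of bounded order, along the hyperbolic geodesic. -/
theorem distortion_aux (F : ℂ → ℂ) (α : ℝ) (hF : DifferentiableOn ℂ F (ball 0 1))
    (hF' : ∀ z ∈ ball (0 : ℂ) 1, deriv F z ≠ 0)
    (hord : ∀ z ∈ ball (0 : ℂ) 1,
      ‖-(conj z) + (1 - (‖z‖ : ℂ) ^ 2) * deriv (deriv F) z / (2 * deriv F z)‖ ≤ α)
    {z ζ : ℂ} (hz : ‖z‖ < 1) (hζ : ‖ζ‖ < 1) :
    (1 - ‖(ζ + z) / (1 + conj z * ζ)‖ ^ 2) ^ 2 * ‖deriv F ((ζ + z) / (1 + conj z * ζ))‖ ^ 2 ≤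
      (1 - ‖z‖ ^ 2) ^ 2 * ‖deriv F z‖ ^ 2 *
        Real.exp (2 * α * Real.log ((1 + ‖ζ‖) / (1 - ‖ζ‖))) := by
  set T := ‖ζ‖ with hT
  have hT0 : 0 ≤ T := norm_nonneg _
  -- denominators
  have hden : ∀ t ∈ Icc (0 : ℝ) 1, 1 + conj z * (t * ζ) ≠ 0 := by
    intro t ht h0
    have h1 : conj z * (t * ζ) = -1 := by linear_combination h0
    have h2 : ‖conj z * ((t : ℂ) * ζ)‖ = 1 := by rw [h1]; simp
    rw [norm_mul, norm_mul, Complex.norm_conj, Complex.norm_real, Real.norm_of_nonneg ht.1, ← hT] at h2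
    have h3 : t * T < 1 := by nlinarith [ht.2, ht.1]
    have h4 : 0 ≤ t * T := mul_nonneg ht.1 hT0
    nlinarith [norm_nonneg z]
  set γ : ℝ → ℂ := fun t => ((t : ℂ) * ζ + z) / (1 + conj z * (t * ζ)) with hγ
  set γ' : ℝ → ℂ := fun t => ζ * (1 - (‖z‖ : ℂ) ^ 2) / (1 + conj z * (t * ζ)) ^ 2 with hγ'
  have hzz : conj z * z = (‖z‖ : ℂ) ^ 2 := Complex.conj_mul' z
  have hder : ∀ t ∈ Icc (0 : ℝ) 1, HasDerivAt γ (γ' t) t := by
    intro t ht
    have hc : HasDerivAt (fun s : ℝ => (s : ℂ)) 1 t := Complex.ofRealCLM.hasDerivAt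
    have h1 : HasDerivAt (fun s : ℝ => (s : ℂ) * ζ + z) ζ t := by
      simpa using (hc.mul_const ζ).add_const z
    have h2 : HasDerivAt (fun s : ℝ => 1 + conj z * ((s : ℂ) * ζ)) (conj z * ζ) t := by
      simpa using ((hc.mul_const ζ).const_mul (conj z)).const_add 1
    have h3 := h1.div h2 (hden t ht)
    refine h3.congr_deriv ?_
    show _ = ζ * (1 - (‖z‖ : ℂ) ^ 2) / (1 + conj z * (t * ζ)) ^ 2
    congr 1
    rw [← hzz]; ring
  -- 1 - |γ|^2
  have hnorm : ∀ t ∈ Icc (0 : ℝ) 1,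
      1 - ‖γ t‖ ^ 2 = (1 - ‖z‖ ^ 2) * (1 - (t * T) ^ 2) / ‖1 + conj z * (t * ζ)‖ ^ 2 := by
    intro t ht
    have hd := norm_pos_iff.2 (hden t ht)
    simp only [hγ]
    rw [norm_div, div_pow]
    rw [eq_div_iff (by positivity), sub_mul, div_mul_cancel₀ _ (by positivity), one_mul]
    have e1 : ‖1 + conj z * (t * ζ)‖ ^ 2 = normSq (1 + conj z * (t * ζ)) := (Complex.normSq_eq_norm_sq _).symm
    have e2 : ‖(t : ℂ) * ζ + z‖ ^ 2 = normSq ((t : ℂ) * ζ + z) := (Complex.normSq_eq_norm_sq _).symm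
    have e3 : ‖z‖ ^ 2 = normSq z := (Complex.normSq_eq_norm_sq _).symm
    have e4 : (t * T) ^ 2 = t ^ 2 * normSq ζ := by
      rw [mul_pow, hT, Complex.normSq_eq_norm_sq]
    rw [e1, e2, e3, e4]
    simp only [Complex.normSq_apply, Complex.add_re, Complex.add_im, Complex.mul_re, Complex.mul_im,
      Complex.conj_re, Complex.conj_im, Complex.ofReal_re, Complex.ofReal_im, Complex.one_re,
      Complex.one_im]
    ring
  have hz2 : 0 < 1 - ‖z‖ ^ 2 := by nlinarith [norm_nonneg z]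
  have htT : ∀ t ∈ Icc (0 : ℝ) 1, 0 < 1 - (t * T) ^ 2 := by
    intro t ht
    have h3 : t * T < 1 := by nlinarith [ht.2, ht.1]
    have h4 : 0 ≤ t * T := mul_nonneg ht.1 hT0
    nlinarith
  have hpos : ∀ t ∈ Icc (0 : ℝ) 1, 0 < 1 - ‖γ t‖ ^ 2 := by
    intro t ht
    rw [hnorm t ht]
    have := norm_pos_iff.2 (hden t ht)
    have := htT t ht
    positivity
  have hmem : ∀ t ∈ Icc (0 : ℝ) 1, γ t ∈ ball (0 : ℂ) 1 := by
    intro t ht
    rw [mem_ball_zero_iff]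
    have := hpos t ht
    nlinarith [norm_nonneg (γ t)]
  -- speed
  have hspeed : ∀ t ∈ Icc (0 : ℝ) 1, ‖γ' t‖ = (1 - ‖γ t‖ ^ 2) * (T / (1 - (t * T) ^ 2)) := by
    intro t ht
    have hd := norm_pos_iff.2 (hden t ht)
    have := htT t ht
    rw [hnorm t ht]
    simp only [hγ']
    rw [norm_div, norm_mul, norm_pow]
    have : ‖(1 : ℂ) - (‖z‖ : ℂ) ^ 2‖ = 1 - ‖z‖ ^ 2 := by
      have : (1 : ℂ) - (‖z‖ : ℂ) ^ 2 = ((1 - ‖z‖ ^ 2 : ℝ) : ℂ) := by push_cast; ring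
      rw [this, Complex.norm_real, Real.norm_of_nonneg hz2.le]
    rw [this, ← hT]
    have hne : 1 - (t * T) ^ 2 ≠ 0 := (htT t ht).ne'
    have hne2 : ‖1 + conj z * (t * ζ)‖ ^ 2 ≠ 0 := by positivity
    generalize 1 - (t * T) ^ 2 = A at *
    generalize ‖1 + conj z * (t * ζ)‖ ^ 2 = A2 at *
    field_simp
  have hdF : DifferentiableOn ℂ (deriv F) (ball 0 1) := hF.deriv isOpen_ball
  have hd2 : ∀ t ∈ Icc (0 : ℝ) 1, HasDerivAt (fun s => deriv F (γ s)) (deriv (deriv F) (γ t) * γ' t) t := by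
    intro t ht
    have h1 : HasDerivAt (deriv F) (deriv (deriv F) (γ t)) (γ t) :=
      (hdF.differentiableAt (isOpen_ball.mem_nhds (hmem t ht))).hasDerivAt
    exact h1.comp t (hder t ht)
  -- the function
  set B : ℝ → ℝ := fun t => (1 - ‖γ t‖ ^ 2) ^ 2 * ‖deriv F (γ t)‖ ^ 2 with hB
  set L : ℝ → ℝ := fun t => Real.log (1 + t * T) - Real.log (1 - t * T) with hL
  set B' : ℝ → ℝ := fun t => 2 * (1 - ‖γ t‖ ^ 2) * (-(2 * inner ℝ (γ t) (γ' t))) * ‖deriv F (γ t)‖ ^ 2 +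
    (1 - ‖γ t‖ ^ 2) ^ 2 * (2 * inner ℝ (deriv F (γ t)) (deriv (deriv F) (γ t) * γ' t)) with hB'
  have hBder : ∀ t ∈ Icc (0 : ℝ) 1, HasDerivAt B (B' t) t := by
    intro t ht
    have h1 := (hder t ht).norm_sq
    have h2 := (hd2 t ht).norm_sq
    have h3 := ((h1.const_sub 1).pow 2).mul h2
    refine h3.congr_deriv ?_
    show _ = 2 * (1 - ‖γ t‖ ^ 2) * (-(2 * inner ℝ (γ t) (γ' t))) * ‖deriv F (γ t)‖ ^ 2 +
      (1 - ‖γ t‖ ^ 2) ^ 2 * (2 * inner ℝ (deriv F (γ t)) (deriv (deriv F) (γ t) * γ' t))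
    simp
  have htT1 : ∀ t ∈ Icc (0 : ℝ) 1, t * T < 1 := by
    intro t ht
    nlinarith [ht.2, ht.1]
  have hLder : ∀ t ∈ Icc (0 : ℝ) 1, HasDerivAt L (2 * (T / (1 - (t * T) ^ 2))) t := by
    intro t ht
    have h1 : HasDerivAt (fun s : ℝ => 1 + s * T) T t := by
      simpa using ((hasDerivAt_id t).mul_const T).const_add 1
    have h2 : HasDerivAt (fun s : ℝ => 1 - s * T) (-T) t := by
      simpa using ((hasDerivAt_id t).mul_const T).const_sub 1
    have p1 : 0 < 1 + t * T := by have := mul_nonneg ht.1 hT0; linarith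
    have p2 : 0 < 1 - t * T := by have := htT1 t ht; linarith
    have h3 := (h1.log p1.ne').sub (h2.log p2.ne')
    refine h3.congr_deriv ?_
    have e : 1 - (t * T) ^ 2 = (1 + t * T) * (1 - t * T) := by ring
    rw [e]
    have hsum : (1 + t * T) + (1 - t * T) = 2 := by ring
    generalize 1 + t * T = A1 at *
    generalize 1 - t * T = A2 at *
    have e2 : T / A1 - -T / A2 = T * (A1 + A2) / (A1 * A2) := by
      field_simp
      ring
    rw [e2, hsum]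
    ring
  -- the differential inequality
  have hineq : ∀ t ∈ Icc (0 : ℝ) 1, B' t ≤ 2 * α * (2 * (T / (1 - (t * T) ^ 2))) * B t := by
    intro t ht
    have hne := hF' _ (hmem t ht)
    set D1 := deriv F (γ t) with hD1
    set D2 := deriv (deriv F) (γ t) with hD2
    set p := γ t with hp
    set v := γ' t with hv
    have hpp := hpos t ht
    rw [← hp] at hpp
    -- rewrite B'
    have e1 : B' t = 4 * (1 - ‖p‖ ^ 2) * ‖D1‖ ^ 2 *
        ((-(conj p) + (1 - (‖p‖ : ℂ) ^ 2) * D2 / (2 * D1)) * v).re := by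
      simp only [hB', ← hp, ← hv, ← hD1, ← hD2]
      have i1 : inner ℝ p v = (conj p * v).re := by
        rw [Complex.inner, mul_comm]
      have i2 : inner ℝ D1 (D2 * v) = ‖D1‖ ^ 2 * (D2 / D1 * v).re := by
        rw [Complex.inner]
        have : D2 * v * conj D1 = ((‖D1‖ ^ 2 : ℝ) : ℂ) * (D2 / D1 * v) := by
          have h : (((‖D1‖ ^ 2 : ℝ)) : ℂ) = D1 * conj D1 := by
            rw [Complex.mul_conj, Complex.normSq_eq_norm_sq]
          rw [h]
          field_simp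
        rw [this, Complex.re_ofReal_mul]
      rw [i1, i2]
      have i3 : ((-(conj p) + (1 - (‖p‖ : ℂ) ^ 2) * D2 / (2 * D1)) * v).re =
          -(conj p * v).re + (1 - ‖p‖ ^ 2) / 2 * (D2 / D1 * v).re := by
        have : (-(conj p) + (1 - (‖p‖ : ℂ) ^ 2) * D2 / (2 * D1)) * v =
            -(conj p * v) + (((1 - ‖p‖ ^ 2) / 2 : ℝ) : ℂ) * (D2 / D1 * v) := by
          push_cast
          field_simp
        rw [this, Complex.add_re, Complex.neg_re, Complex.re_ofReal_mul]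
      rw [i3]
      ring
    have e2 : ((-(conj p) + (1 - (‖p‖ : ℂ) ^ 2) * D2 / (2 * D1)) * v).re ≤ α * ‖v‖ := by
      calc _ ≤ ‖(-(conj p) + (1 - (‖p‖ : ℂ) ^ 2) * D2 / (2 * D1)) * v‖ := Complex.re_le_norm _
        _ = ‖(-(conj p) + (1 - (‖p‖ : ℂ) ^ 2) * D2 / (2 * D1))‖ * ‖v‖ := norm_mul _ _
        _ ≤ α * ‖v‖ := mul_le_mul_of_nonneg_right (hord p (hmem t ht)) (norm_nonneg _)
    have e3 : ‖v‖ = (1 - ‖p‖ ^ 2) * (T / (1 - (t * T) ^ 2)) := hspeed t ht
    rw [e1]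
    calc 4 * (1 - ‖p‖ ^ 2) * ‖D1‖ ^ 2 *
        ((-(conj p) + (1 - (‖p‖ : ℂ) ^ 2) * D2 / (2 * D1)) * v).re
        ≤ 4 * (1 - ‖p‖ ^ 2) * ‖D1‖ ^ 2 * (α * ‖v‖) :=
          mul_le_mul_of_nonneg_left e2 (by positivity)
      _ = 2 * α * (2 * (T / (1 - (t * T) ^ 2))) * B t := by
          rw [e3]; simp only [hB, ← hp, ← hD1]; ring
  -- monotonicity
  have hanti : AntitoneOn (fun t => B t * Real.exp (-(2 * α * L t))) (Icc 0 1) := by
    have hder2 : ∀ t ∈ Icc (0 : ℝ) 1, HasDerivAt (fun t => B t * Real.exp (-(2 * α * L t)))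
        (B' t * Real.exp (-(2 * α * L t)) +
          B t * (Real.exp (-(2 * α * L t)) * (-(2 * α * (2 * (T / (1 - (t * T) ^ 2))))))) t := by
      intro t ht
      exact (hBder t ht).mul (((hLder t ht).const_mul (2 * α)).neg.exp)
    apply antitoneOn_of_deriv_nonpos (convex_Icc 0 1)
    · intro t ht
      exact (hder2 t ht).continuousAt.continuousWithinAt
    · intro t ht
      rw [interior_Icc] at ht
      exact (hder2 t (Ioo_subset_Icc_self ht)).differentiableAt.differentiableWithinAt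
    · intro t ht
      rw [interior_Icc] at ht
      have ht' := Ioo_subset_Icc_self ht
      rw [(hder2 t ht').deriv]
      have h1 := hineq t ht'
      have h2 := Real.exp_pos (-(2 * α * L t))
      nlinarith
  have hfin := hanti (left_mem_Icc.2 zero_le_one) (right_mem_Icc.2 zero_le_one) zero_le_one
  have hγ0 : γ 0 = z := by simp [hγ]
  have hγ1 : γ 1 = (ζ + z) / (1 + conj z * ζ) := by simp [hγ]
  have hL0 : L 0 = 0 := by simp [hL]
  have hL1 : L 1 = Real.log ((1 + T) / (1 - T)) := by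
    simp only [hL, one_mul]
    rw [Real.log_div (by positivity) (by linarith)]
  simp only [hB, hγ0, hγ1, hL0, hL1] at hfin
  rw [mul_zero, neg_zero, Real.exp_zero, mul_one, Real.exp_neg, ← div_eq_mul_inv,
    div_le_iff₀ (Real.exp_pos _)] at hfin
  exact hfin

end Run7.h196.Camp
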