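import Mathlib

set_option autoImplicit false

namespace Run7.h196.Camp

/-- Case `x ≥ 0` of the two-variable inequality at the extreme parameter. -/
theorem W_pos (c x : ℝ) (hc0 : 0 ≤ c) (hc1 : c ≤ 1) (hx0 : 0 ≤ x) (hx1 : x ≤ 1 / 2) :
    (1 - x) * (8 * (1 + c * x) ^ 2 - 3 * (1 - c ^ 2)) ^ 2 ≤ 27 * (1 + c) ^ 2 * (1 + c * x) := by
  have h1 : 0 ≤ 1 - c := by linarith
  have h2 : 0 ≤ 1 - 2 * x := by linarith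
  have key : 27 * (1 + c) ^ 2 * (1 + c * x) -
      (1 - x) * (8 * (1 + c * x) ^ 2 - 3 * (1 - c ^ 2)) ^ 2 =
      108 * ((1 - c)^0 * c^4 * ((1 - 2*x)^2 * (2*x)^3)) +
      240 * ((1 - c)^0 * c^4 * ((1 - 2*x)^3 * (2*x)^2)) +
      178 * ((1 - c)^0 * c^4 * ((1 - 2*x)^4 * (2*x)^1)) +
      44 * ((1 - c)^0 * c^4 * ((1 - 2*x)^5 * (2*x)^0)) +
      108 * ((1 - c)^1 * c^3 * ((1 - 2*x)^0 * (2*x)^5)) +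
      468 * ((1 - c)^1 * c^3 * ((1 - 2*x)^1 * (2*x)^4)) +
      1020 * ((1 - c)^1 * c^3 * ((1 - 2*x)^2 * (2*x)^3)) +
      1216 * ((1 - c)^1 * c^3 * ((1 - 2*x)^3 * (2*x)^2)) +
      720 * ((1 - c)^1 * c^3 * ((1 - 2*x)^4 * (2*x)^1)) +
      164 * ((1 - c)^1 * c^3 * ((1 - 2*x)^5 * (2*x)^0)) +
      333/2 * ((1 - c)^2 * c^2 * ((1 - 2*x)^0 * (2*x)^5)) +
      717 * ((1 - c)^2 * c^2 * ((1 - 2*x)^1 * (2*x)^4)) +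
      1365 * ((1 - c)^2 * c^2 * ((1 - 2*x)^2 * (2*x)^3)) +
      1416 * ((1 - c)^2 * c^2 * ((1 - 2*x)^3 * (2*x)^2)) +
      1545/2 * ((1 - c)^2 * c^2 * ((1 - 2*x)^4 * (2*x)^1)) +
      171 * ((1 - c)^2 * c^2 * ((1 - 2*x)^5 * (2*x)^0)) +
      171/2 * ((1 - c)^3 * c^1 * ((1 - 2*x)^0 * (2*x)^5)) +
      364 * ((1 - c)^3 * c^1 * ((1 - 2*x)^1 * (2*x)^4)) +
      641 * ((1 - c)^3 * c^1 * ((1 - 2*x)^2 * (2*x)^3)) +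
      594 * ((1 - c)^3 * c^1 * ((1 - 2*x)^3 * (2*x)^2)) +
      587/2 * ((1 - c)^3 * c^1 * ((1 - 2*x)^4 * (2*x)^1)) +
      62 * ((1 - c)^3 * c^1 * ((1 - 2*x)^5 * (2*x)^0)) +
      29/2 * ((1 - c)^4 * c^0 * ((1 - 2*x)^0 * (2*x)^5)) +
      60 * ((1 - c)^4 * c^0 * ((1 - 2*x)^1 * (2*x)^4)) +
      95 * ((1 - c)^4 * c^0 * ((1 - 2*x)^2 * (2*x)^3)) +
      70 * ((1 - c)^4 * c^0 * ((1 - 2*x)^3 * (2*x)^2)) +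
      45/2 * ((1 - c)^4 * c^0 * ((1 - 2*x)^4 * (2*x)^1)) +
      2 * ((1 - c)^4 * c^0 * ((1 - 2*x)^5 * (2*x)^0)) := by
    ring
  have : 0 ≤ 27 * (1 + c) ^ 2 * (1 + c * x) -
      (1 - x) * (8 * (1 + c * x) ^ 2 - 3 * (1 - c ^ 2)) ^ 2 := by
    rw [key]
    generalize 1 - c = d at *
    generalize 1 - 2 * x = y at *
    positivity
  linarith

theorem W_neg_aux (v e : ℝ) (hv0 : 0 ≤ v) (hv1 : v ≤ 1) (he0 : 0 ≤ e) (he1 : e ≤ 1 / 2) :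
    0 ≤ 27 * (1 + (e + (1 - e) * v)) ^ 2 * (1 + (e + (1 - e) * v) * (-e)) -
      (1 - (-e)) * (8 * (1 + (e + (1 - e) * v) * (-e)) ^ 2 - 3 * (1 - (e + (1 - e) * v) ^ 2)) ^ 2 := by
  have h1 : 0 ≤ 1 - v := by linarith
  have h2 : 0 ≤ 1 - 2 * e := by linarith
  have key : 27 * (1 + (e + (1 - e) * v)) ^ 2 * (1 + (e + (1 - e) * v) * (-e)) -
      (1 - (-e)) * (8 * (1 + (e + (1 - e) * v) * (-e)) ^ 2 - 3 * (1 - (e + (1 - e) * v) ^ 2)) ^ 2 =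
      48 * ((1 - v)^0 * v^4 * ((1 - 2*e)^0 * (2*e)^9)) +
      464 * ((1 - v)^0 * v^4 * ((1 - 2*e)^1 * (2*e)^8)) +
      1956 * ((1 - v)^0 * v^4 * ((1 - 2*e)^2 * (2*e)^7)) +
      4720 * ((1 - v)^0 * v^4 * ((1 - 2*e)^3 * (2*e)^6)) +
      7182 * ((1 - v)^0 * v^4 * ((1 - 2*e)^4 * (2*e)^5)) +
      7140 * ((1 - v)^0 * v^4 * ((1 - 2*e)^5 * (2*e)^4)) +
      4632 * ((1 - v)^0 * v^4 * ((1 - 2*e)^6 * (2*e)^3)) +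
      1888 * ((1 - v)^0 * v^4 * ((1 - 2*e)^7 * (2*e)^2)) +
      438 * ((1 - v)^0 * v^4 * ((1 - 2*e)^8 * (2*e)^1)) +
      44 * ((1 - v)^0 * v^4 * ((1 - 2*e)^9 * (2*e)^0)) +
      198 * ((1 - v)^1 * v^3 * ((1 - 2*e)^0 * (2*e)^9)) +
      1872 * ((1 - v)^1 * v^3 * ((1 - 2*e)^1 * (2*e)^8)) +
      7706 * ((1 - v)^1 * v^3 * ((1 - 2*e)^2 * (2*e)^7)) +
      18142 * ((1 - v)^1 * v^3 * ((1 - 2*e)^3 * (2*e)^6)) +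
      26940 * ((1 - v)^1 * v^3 * ((1 - 2*e)^4 * (2*e)^5)) +
      26196 * ((1 - v)^1 * v^3 * ((1 - 2*e)^5 * (2*e)^4)) +
      16710 * ((1 - v)^1 * v^3 * ((1 - 2*e)^6 * (2*e)^3)) +
      6762 * ((1 - v)^1 * v^3 * ((1 - 2*e)^7 * (2*e)^2)) +
      1582 * ((1 - v)^1 * v^3 * ((1 - 2*e)^8 * (2*e)^1)) +
      164 * ((1 - v)^1 * v^3 * ((1 - 2*e)^9 * (2*e)^0)) +
      2295/8 * ((1 - v)^2 * v^2 * ((1 - 2*e)^0 * (2*e)^9)) +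
      5265/2 * ((1 - v)^2 * v^2 * ((1 - 2*e)^1 * (2*e)^8)) +
      83805/8 * ((1 - v)^2 * v^2 * ((1 - 2*e)^2 * (2*e)^7)) +
      95001/4 * ((1 - v)^2 * v^2 * ((1 - 2*e)^3 * (2*e)^6)) +
      270861/8 * ((1 - v)^2 * v^2 * ((1 - 2*e)^4 * (2*e)^5)) +
      31551 * ((1 - v)^2 * v^2 * ((1 - 2*e)^5 * (2*e)^4)) +
      154347/8 * ((1 - v)^2 * v^2 * ((1 - 2*e)^6 * (2*e)^3)) +
      30021/4 * ((1 - v)^2 * v^2 * ((1 - 2*e)^7 * (2*e)^2)) +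
      3393/2 * ((1 - v)^2 * v^2 * ((1 - 2*e)^8 * (2*e)^1)) +
      171 * ((1 - v)^2 * v^2 * ((1 - 2*e)^9 * (2*e)^0)) +
      2835/16 * ((1 - v)^3 * v^1 * ((1 - 2*e)^0 * (2*e)^9)) +
      25029/16 * ((1 - v)^3 * v^1 * ((1 - 2*e)^1 * (2*e)^8)) +
      11889/2 * ((1 - v)^3 * v^1 * ((1 - 2*e)^2 * (2*e)^7)) +
      102159/8 * ((1 - v)^3 * v^1 * ((1 - 2*e)^3 * (2*e)^6)) +
      273947/16 * ((1 - v)^3 * v^1 * ((1 - 2*e)^4 * (2*e)^5)) +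
      238713/16 * ((1 - v)^3 * v^1 * ((1 - 2*e)^5 * (2*e)^4)) +
      68033/8 * ((1 - v)^3 * v^1 * ((1 - 2*e)^6 * (2*e)^3)) +
      12337/4 * ((1 - v)^3 * v^1 * ((1 - 2*e)^7 * (2*e)^2)) +
      1305/2 * ((1 - v)^3 * v^1 * ((1 - 2*e)^8 * (2*e)^1)) +
      62 * ((1 - v)^3 * v^1 * ((1 - 2*e)^9 * (2*e)^0)) +
      1215/32 * ((1 - v)^4 * v^0 * ((1 - 2*e)^0 * (2*e)^9)) +
      2511/8 * ((1 - v)^4 * v^0 * ((1 - 2*e)^1 * (2*e)^8)) +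
      17523/16 * ((1 - v)^4 * v^0 * ((1 - 2*e)^2 * (2*e)^7)) +
      16857/8 * ((1 - v)^4 * v^0 * ((1 - 2*e)^3 * (2*e)^6)) +
      78495/32 * ((1 - v)^4 * v^0 * ((1 - 2*e)^4 * (2*e)^5)) +
      7145/4 * ((1 - v)^4 * v^0 * ((1 - 2*e)^5 * (2*e)^4)) +
      811 * ((1 - v)^4 * v^0 * ((1 - 2*e)^6 * (2*e)^3)) +
      441/2 * ((1 - v)^4 * v^0 * ((1 - 2*e)^7 * (2*e)^2)) +
      65/2 * ((1 - v)^4 * v^0 * ((1 - 2*e)^8 * (2*e)^1)) +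
      2 * ((1 - v)^4 * v^0 * ((1 - 2*e)^9 * (2*e)^0)) := by
    ring
  rw [key]
  generalize 1 - v = d at *
  generalize 1 - 2 * e = y at *
  positivity

end Run7.h196.Camp
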