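import Mathlib
import Pool.Agent.Run7.h196.Camp.W

set_option autoImplicit false

namespace Run7.h196.Camp

theorem W_nonneg (c x : ℝ) (hc0 : 0 ≤ c) (hc1 : c ≤ 1) (hx0 : -(1 / 2) ≤ x) (hx1 : x ≤ 1 / 2)
    (hcx : 0 ≤ c + x) :
    (1 - x) * (8 * (1 + c * x) ^ 2 - 3 * (1 - c ^ 2)) ^ 2 ≤ 27 * (1 + c) ^ 2 * (1 + c * x) := by
  rcases le_or_gt 0 x with hx | hx
  · exact W_pos c x hc0 hc1 hx hx1
  · have h1 : 0 < 1 + x := by linarith
    have hv0 : 0 ≤ (c + x) / (1 + x) := div_nonneg hcx h1.le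
    have hv1 : (c + x) / (1 + x) ≤ 1 := by rw [div_le_one h1]; linarith
    have h := W_neg_aux ((c + x) / (1 + x)) (-x) hv0 hv1 (by linarith) (by linarith)
    have hc : -x + (1 - -x) * ((c + x) / (1 + x)) = c := by
      have : 1 - -x = 1 + x := by ring
      rw [this, mul_div_cancel₀ _ h1.ne']
      ring
    rw [hc, neg_neg] at h
    linarith

theorem P1_pos (c x : ℝ) (hc0 : 0 ≤ c) (hc1 : c ≤ 1) (hx0 : 0 ≤ x) (hx1 : x ≤ 1 / 2) :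
    (1 - x) * (2 * (1 + c * x) ^ 2 - (1 - c ^ 2) + (1 - c ^ 2) * x ^ 2) ^ 2 ≤
      (1 + c) ^ 2 * (1 + c * x) * ((1 + x) ^ 3 * (1 - x)) := by
  -- A = 1 + c x, B = c + x
  have hA : 0 ≤ 1 + c * x := by positivity
  have hB : 0 ≤ c + x := by positivity
  have hAB : c + x ≤ 1 + c * x := by nlinarith
  have hA1 : 1 + c * x ≤ 1 + x := by nlinarith
  have e1 : 2 * (1 + c * x) ^ 2 - (1 - c ^ 2) + (1 - c ^ 2) * x ^ 2 =
      (1 + c * x) ^ 2 + (c + x) ^ 2 := by ring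
  have e2 : (1 + c) ^ 2 * (1 + c * x) * ((1 + x) ^ 3 * (1 - x)) =
      (1 - x) * ((1 + x) * (1 + c * x) * ((1 + c * x) + (c + x)) ^ 2) := by ring
  rw [e1, e2]
  apply mul_le_mul_of_nonneg_left _ (by linarith)
  set A := 1 + c * x with hAdef
  set B := c + x with hBdef
  have h3 : A ^ 2 + B ^ 2 ≤ A * (A + B) := by nlinarith
  have h4 : (A ^ 2 + B ^ 2) ^ 2 ≤ (A * (A + B)) ^ 2 :=
    pow_le_pow_left₀ (by positivity) h3 2
  have h5 : (A * (A + B)) ^ 2 ≤ (1 + x) * A * (A + B) ^ 2 := by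
    have : (A * (A + B)) ^ 2 = A * A * (A + B) ^ 2 := by ring
    rw [this]
    apply mul_le_mul_of_nonneg_right _ (by positivity)
    exact mul_le_mul_of_nonneg_right hA1 hA
  linarith

theorem P1_neg (c u : ℝ) (hc0 : 0 ≤ c) (hc1 : c ≤ 1) (hx0 : 0 ≤ u) (hx1 : u ≤ 1 / 2)
    (hcu : u ≤ c) :
    (1 + u) * (2 * (1 - c * u) ^ 2 - (1 - c ^ 2) + (1 - c ^ 2) * u ^ 2) ^ 2 ≤
      (1 + c) ^ 2 * (1 - c * u) * ((1 + u) ^ 3 * (1 - u)) := by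
  have hB : 0 ≤ c - u := by linarith
  have hAB : c - u ≤ 1 - c * u := by nlinarith
  have hA1 : 1 - u ≤ 1 - c * u := by nlinarith
  have hA2 : 1 - c * u ≤ 1 := by nlinarith
  have hA : 0 ≤ 1 - c * u := by linarith
  have e1 : 2 * (1 - c * u) ^ 2 - (1 - c ^ 2) + (1 - c ^ 2) * u ^ 2 =
      (1 - c * u) ^ 2 + (c - u) ^ 2 := by ring
  rw [e1]
  have hu : 0 < 1 - u := by linarith
  -- multiply by (1-u)
  have key : (1 - u) * ((1 - c * u) ^ 2 + (c - u) ^ 2) ^ 2 ≤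
      (1 + u) ^ 2 * ((1 - c * u) + (c - u)) ^ 2 * (1 - c * u) := by
    set A := 1 - c * u with hAdef
    set B := c - u with hBdef
    have h3 : A ^ 2 + B ^ 2 ≤ A * (A + B) := by nlinarith
    have h4 : (A ^ 2 + B ^ 2) ^ 2 ≤ (A * (A + B)) ^ 2 :=
      pow_le_pow_left₀ (by positivity) h3 2
    have h5 : (A * (A + B)) ^ 2 ≤ (A + B) ^ 2 := by
      rw [mul_pow]
      have : A ^ 2 ≤ 1 := by nlinarith
      nlinarith [sq_nonneg (A + B)]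
    have h6 : (1 - u) * (A ^ 2 + B ^ 2) ^ 2 ≤ A * (A + B) ^ 2 :=
      mul_le_mul hA1 (h4.trans h5) (by positivity) hA
    have h7 : A * (A + B) ^ 2 ≤ (1 + u) ^ 2 * (A + B) ^ 2 * A := by
      have h8 : 1 ≤ (1 + u) ^ 2 := by nlinarith
      have h9 : 0 ≤ A * (A + B) ^ 2 := by positivity
      nlinarith
    linarith
  have e3 : (1 - c * u) + (c - u) = (1 + c) * (1 - u) := by ring
  rw [e3] at key
  have key2 : ((1 - c * u) ^ 2 + (c - u) ^ 2) ^ 2 ≤ (1 + u) ^ 2 * (1 + c) ^ 2 * (1 - u) * (1 - c * u) := by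
    have : (1 - u) * ((1 - c * u) ^ 2 + (c - u) ^ 2) ^ 2 ≤
        (1 - u) * ((1 + u) ^ 2 * (1 + c) ^ 2 * (1 - u) * (1 - c * u)) := by
      calc _ ≤ _ := key
        _ = _ := by ring
    exact le_of_mul_le_mul_left this hu
  calc (1 + u) * ((1 - c * u) ^ 2 + (c - u) ^ 2) ^ 2
      ≤ (1 + u) * ((1 + u) ^ 2 * (1 + c) ^ 2 * (1 - u) * (1 - c * u)) :=
        mul_le_mul_of_nonneg_left key2 (by linarith)
    _ = _ := by ring

theorem pow_conv (v t : ℝ) (hv : 0 ≤ v) (ht0 : 0 ≤ t) (ht1 : t ≤ 1) (n : ℕ) :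
    ((1 - t) * v + t * (1 / 2)) ^ n ≤ (1 - t) * v ^ n + t * (1 / 2) ^ n := by
  have hc : ConvexOn ℝ (Set.Ici (0 : ℝ)) fun x : ℝ => x ^ n := convexOn_pow n
  have h := hc.2 (Set.mem_Ici.2 hv) (Set.mem_Ici.2 (by norm_num : (0 : ℝ) ≤ 1 / 2))
    (by linarith : 0 ≤ 1 - t) ht0 (by ring)
  simpa only [smul_eq_mul] using h

/-- Interpolation in the parameter `u`. -/
theorem interp (K Z k y v u : ℝ) (hK : 0 ≤ K) (hZ : 0 ≤ Z) (hk : 0 ≤ k) (hy : 0 ≤ y)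
    (hv0 : 0 ≤ v) (hvu : v ≤ u) (hu : u ≤ 1 / 2)
    (h1 : y * (Z + k * v ^ 2) ^ 2 ≤ K * ((1 + v) ^ 3 * (1 - v)))
    (h2 : y * (Z + k * (1 / 2) ^ 2) ^ 2 ≤ K * (27 / 16)) :
    y * (Z + k * u ^ 2) ^ 2 ≤ K * ((1 + u) ^ 3 * (1 - u)) := by
  rcases eq_or_lt_of_le (hvu.trans hu) with hv | hv
  · have : u = 1 / 2 := le_antisymm hu (hv ▸ hvu)
    subst this
    norm_num at h2 ⊢
    linarith
  · obtain ⟨t, ht⟩ : ∃ t, t = (u - v) / (1 / 2 - v) := ⟨_, rfl⟩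
    have hd : 0 < 1 / 2 - v := by linarith
    have ht0 : 0 ≤ t := by rw [ht]; apply div_nonneg <;> linarith
    have ht1 : t ≤ 1 := by rw [ht, div_le_one hd]; linarith
    have hut : u = (1 - t) * v + t * (1 / 2) := by
      have : t * (1 / 2 - v) = u - v := by rw [ht, div_mul_cancel₀ _ hd.ne']
      linarith
    have p2 := pow_conv v t hv0 ht0 ht1 2
    have p3 := pow_conv v t hv0 ht0 ht1 3
    have p4 := pow_conv v t hv0 ht0 ht1 4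
    rw [← hut] at p2 p3 p4
    have q1 : (1 - t) * ((1 + v) ^ 3 * (1 - v)) + t * (27 / 16) ≤ (1 + u) ^ 3 * (1 - u) := by
      have e1 : (1 + u) ^ 3 * (1 - u) = 1 + 2 * u - 2 * u ^ 3 - u ^ 4 := by ring
      have e2 : (1 + v) ^ 3 * (1 - v) = 1 + 2 * v - 2 * v ^ 3 - v ^ 4 := by ring
      rw [e1, e2]
      norm_num at p3 p4
      linarith
    have q2 : (Z + k * u ^ 2) ^ 2 ≤ (1 - t) * (Z + k * v ^ 2) ^ 2 + t * (Z + k * (1 / 2) ^ 2) ^ 2 := by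
      have e1 : (Z + k * u ^ 2) ^ 2 = Z ^ 2 + 2 * (Z * k) * u ^ 2 + k ^ 2 * u ^ 4 := by ring
      have e2 : (Z + k * v ^ 2) ^ 2 = Z ^ 2 + 2 * (Z * k) * v ^ 2 + k ^ 2 * v ^ 4 := by ring
      have e3 : (Z + k * (1 / 2) ^ 2) ^ 2 = Z ^ 2 + 2 * (Z * k) * (1 / 2) ^ 2 + k ^ 2 * (1 / 2) ^ 4 := by
        ring
      rw [e1, e2, e3]
      have f1 : Z * k * u ^ 2 ≤ Z * k * ((1 - t) * v ^ 2 + t * (1 / 2) ^ 2) :=
        mul_le_mul_of_nonneg_left p2 (by positivity)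
      have f2 : k ^ 2 * u ^ 4 ≤ k ^ 2 * ((1 - t) * v ^ 4 + t * (1 / 2) ^ 4) :=
        mul_le_mul_of_nonneg_left p4 (by positivity)
      linarith
    calc y * (Z + k * u ^ 2) ^ 2
        ≤ y * ((1 - t) * (Z + k * v ^ 2) ^ 2 + t * (Z + k * (1 / 2) ^ 2) ^ 2) :=
          mul_le_mul_of_nonneg_left q2 hy
      _ = (1 - t) * (y * (Z + k * v ^ 2) ^ 2) + t * (y * (Z + k * (1 / 2) ^ 2) ^ 2) := by ring
      _ ≤ (1 - t) * (K * ((1 + v) ^ 3 * (1 - v))) + t * (K * (27 / 16)) := by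
          apply add_le_add
          · exact mul_le_mul_of_nonneg_left h1 (by linarith)
          · exact mul_le_mul_of_nonneg_left h2 ht0
      _ = K * ((1 - t) * ((1 + v) ^ 3 * (1 - v)) + t * (27 / 16)) := by ring
      _ ≤ _ := mul_le_mul_of_nonneg_left q1 hK

theorem P1 (u c x : ℝ) (hu1 : u ≤ 1 / 2) (hx0 : -u ≤ x) (hx1 : x ≤ u)
    (hc0 : 0 ≤ c) (hc1 : c ≤ 1) (hcx : 0 ≤ c + x) :
    (1 - x) * (2 * (1 + c * x) ^ 2 - (1 - u ^ 2) * (1 - c ^ 2)) ^ 2 ≤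
      (1 + c) ^ 2 * (1 + c * x) * ((1 + u) ^ 3 * (1 - u)) := by
  have hu0 : 0 ≤ u := by linarith
  have hA : 1 / 2 ≤ 1 + c * x := by nlinarith
  have hk : 0 ≤ 1 - c ^ 2 := by nlinarith
  have hZ : 0 ≤ 2 * (1 + c * x) ^ 2 - (1 - c ^ 2) := by
    have : 1 - c / 2 ≤ 1 + c * x := by nlinarith
    have h2 : (1 - c / 2) ^ 2 ≤ (1 + c * x) ^ 2 := pow_le_pow_left₀ (by linarith) this 2
    nlinarith [sq_nonneg (3 * c - 2)]
  have e : 2 * (1 + c * x) ^ 2 - (1 - u ^ 2) * (1 - c ^ 2) =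
      (2 * (1 + c * x) ^ 2 - (1 - c ^ 2)) + (1 - c ^ 2) * u ^ 2 := by ring
  rw [e]
  have hW := W_nonneg c x hc0 hc1 (by linarith) (by linarith) hcx
  have hend : (1 - x) * ((2 * (1 + c * x) ^ 2 - (1 - c ^ 2)) + (1 - c ^ 2) * (1 / 2) ^ 2) ^ 2 ≤
      (1 + c) ^ 2 * (1 + c * x) * (27 / 16) := by
    have e2 : (1 - x) * ((2 * (1 + c * x) ^ 2 - (1 - c ^ 2)) + (1 - c ^ 2) * (1 / 2) ^ 2) ^ 2 =
        (1 - x) * (8 * (1 + c * x) ^ 2 - 3 * (1 - c ^ 2)) ^ 2 / 16 := by ring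
    rw [e2]
    linarith
  rcases le_or_gt 0 x with hx | hx
  · exact interp _ _ _ _ x u (by positivity) hZ hk (by linarith) hx hx1 hu1
      (P1_pos c x hc0 hc1 hx (by linarith)) hend
  · have h1 := P1_neg c (-x) hc0 hc1 (by linarith) (by linarith) (by linarith)
    have h1' : (1 - x) * (2 * (1 + c * x) ^ 2 - (1 - c ^ 2) + (1 - c ^ 2) * (-x) ^ 2) ^ 2 ≤
        (1 + c) ^ 2 * (1 + c * x) * ((1 + -x) ^ 3 * (1 - -x)) := by
      have e3 : 1 - c * -x = 1 + c * x := by ring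
      rw [e3] at h1
      have e4 : 1 + -x = 1 - x := by ring
      rw [e4] at h1 ⊢
      exact h1
    exact interp _ _ _ _ (-x) u (by positivity) hZ hk (by linarith) (by linarith) (by linarith)
      hu1 h1' hend

end Run7.h196.Camp
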