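import Mathlib
import Pool.Agent.Run7.h196.Camp.P1

set_option autoImplicit false

namespace Run7.h196.Camp

open Real

/-- `(1-u)/u * (-log (1-u)) ≤ - log u` for `0 < u ≤ 1/2`. -/
theorem log_ineq (u : ℝ) (hu0 : 0 < u) (hu1 : u ≤ 1 / 2) :
    (1 - u) / u * (-Real.log (1 - u)) ≤ -Real.log u := by
  have h1 : 0 < 1 - u := by linarith
  have hy : 0 < (1 - u) / u := div_pos h1 hu0
  have hy1 : 1 ≤ (1 - u) / u := by rw [le_div_iff₀ hu0]; linarith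
  have hL : -Real.log (1 - u) ≤ u / (1 - u) := by
    rw [← Real.log_inv]
    have := Real.log_le_sub_one_of_pos (inv_pos.2 h1)
    calc Real.log (1 - u)⁻¹ ≤ (1 - u)⁻¹ - 1 := this
      _ = u / (1 - u) := by field_simp; ring
  have hlogy : 1 - ((1 - u) / u)⁻¹ ≤ Real.log ((1 - u) / u) := Real.one_sub_inv_le_log_of_pos hy
  have hlogy2 : Real.log ((1 - u) / u) = Real.log (1 - u) - Real.log u :=
    Real.log_div h1.ne' hu0.ne'
  have h2 : ((1 - u) / u - 1) * (-Real.log (1 - u)) ≤ ((1 - u) / u - 1) * (u / (1 - u)) :=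
    mul_le_mul_of_nonneg_left hL (by linarith)
  have h3 : ((1 - u) / u - 1) * (u / (1 - u)) = 1 - ((1 - u) / u)⁻¹ := by
    field_simp
  rw [hlogy2] at hlogy
  linarith

theorem arsinh_le_self {q : ℝ} (hq : 0 ≤ q) : Real.arsinh q ≤ q := by
  have h := Real.self_le_sinh_iff.2 hq
  calc Real.arsinh q ≤ Real.arsinh (Real.sinh q) := Real.arsinh_le_arsinh.2 h
    _ = q := Real.arsinh_sinh q

theorem regionI (u c x D q α : ℝ) (hu0 : 0 < u) (hu1 : u ≤ 1 / 2) (hx0 : -u ≤ x) (hx1 : x ≤ u)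
    (hc0 : 0 ≤ c) (hc1 : c ≤ 1)
    (hD2 : D ^ 2 ≤ 1 - (1 - u ^ 2) * (1 - c ^ 2) / (1 + c * x) ^ 2)
    (hq2 : q ^ 2 * ((1 - u ^ 2) * (1 + c * x)) ≤ u ^ 2 / 4 * (1 - c) ^ 2 * (1 - x))
    (hα0 : 0 ≤ α) (hα : α * u ≤ 1 - u) (hreg : c * (1 + x ^ 2) ≤ -2 * x) :
    D * Real.exp (α * (2 * Real.arsinh q)) ≤ 1 := by
  have hA : 1 / 2 ≤ 1 + c * x := by nlinarith
  have hu2 : 0 < 1 - u ^ 2 := by nlinarith
  have h1u : 0 < 1 - u := by linarith
  -- D ≤ u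
  have hDu : D ≤ u := by
    have h1 : (1 + c * x) ^ 2 ≤ 1 - c ^ 2 := by nlinarith
    have h2 : 1 - u ^ 2 ≤ (1 - u ^ 2) * (1 - c ^ 2) / (1 + c * x) ^ 2 := by
      rw [le_div_iff₀ (by positivity)]
      exact mul_le_mul_of_nonneg_left h1 hu2.le
    have h3 : D ^ 2 ≤ u ^ 2 := by linarith
    exact le_of_sq_le_sq h3 hu0.le
  -- q bound
  have hq3 : q ^ 2 * (1 - u) ≤ u ^ 2 / 4 := by
    have h1 : (1 - c) ^ 2 * (1 - x) ≤ (1 + c * x) * (1 + u) := by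
      apply mul_le_mul _ (by linarith) (by linarith) (by linarith)
      nlinarith
    have h2 : q ^ 2 * (1 - u) * ((1 + u) * (1 + c * x)) ≤ u ^ 2 / 4 * ((1 + u) * (1 + c * x)) := by
      calc q ^ 2 * (1 - u) * ((1 + u) * (1 + c * x)) = q ^ 2 * ((1 - u ^ 2) * (1 + c * x)) := by ring
        _ ≤ u ^ 2 / 4 * (1 - c) ^ 2 * (1 - x) := hq2
        _ = u ^ 2 / 4 * ((1 - c) ^ 2 * (1 - x)) := by ring
        _ ≤ u ^ 2 / 4 * ((1 + c * x) * (1 + u)) := mul_le_mul_of_nonneg_left h1 (by positivity)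
        _ = _ := by ring
    exact le_of_mul_le_mul_right h2 (by positivity)
  set L := -Real.log (1 - u) with hL
  have hLpos : 0 ≤ L := by
    have : Real.log (1 - u) ≤ 0 := Real.log_nonpos h1u.le (by linarith)
    linarith
  have hars : Real.arsinh q ≤ L / 2 := by
    have hs : q ≤ Real.sinh (L / 2) := by
      apply le_of_sq_le_sq _ (Real.sinh_nonneg_iff.2 (by linarith))
      have e1 : Real.cosh (2 * (L / 2)) = Real.cosh (L / 2) ^ 2 + Real.sinh (L / 2) ^ 2 :=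
        Real.cosh_two_mul _
      have e2 : Real.cosh (L / 2) ^ 2 - Real.sinh (L / 2) ^ 2 = 1 := Real.cosh_sq_sub_sinh_sq _
      have e3 : Real.cosh (2 * (L / 2)) = ((1 - u)⁻¹ + (1 - u)) / 2 := by
        have : 2 * (L / 2) = L := by ring
        rw [this, Real.cosh_eq, hL, Real.exp_neg, neg_neg, Real.exp_log h1u]
      have e4 : Real.sinh (L / 2) ^ 2 = (((1 - u)⁻¹ + (1 - u)) / 2 - 1) / 2 := by linarith
      rw [e4]
      have e5 : (((1 - u)⁻¹ + (1 - u)) / 2 - 1) / 2 = u ^ 2 / 4 / (1 - u) := by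
        field_simp; ring
      rw [e5, le_div_iff₀ h1u]
      exact hq3
    calc Real.arsinh q ≤ Real.arsinh (Real.sinh (L / 2)) := Real.arsinh_le_arsinh.2 hs
      _ = L / 2 := Real.arsinh_sinh _
  have h5 : α * (2 * Real.arsinh q) ≤ -Real.log u := by
    calc α * (2 * Real.arsinh q) ≤ α * L := mul_le_mul_of_nonneg_left (by linarith) hα0
      _ ≤ (1 - u) / u * L := mul_le_mul_of_nonneg_right ((le_div_iff₀ hu0).2 hα) hLpos
      _ ≤ -Real.log u := log_ineq u hu0 hu1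
  calc D * Real.exp (α * (2 * Real.arsinh q)) ≤ u * Real.exp (-Real.log u) :=
        mul_le_mul hDu (Real.exp_le_exp.2 h5) (Real.exp_pos _).le hu0.le
    _ = 1 := by rw [Real.exp_neg, Real.exp_log hu0, mul_inv_cancel₀ hu0.ne']

theorem half_log_le {δ : ℝ} (h0 : 0 ≤ δ) (h1 : δ < 1) :
    Real.log (1 - δ) / 2 ≤ -(δ / (2 - δ)) := by
  have hp : 0 < 1 - δ := by linarith
  have h := Real.le_log_one_add_of_nonneg (x := δ / (1 - δ)) (div_nonneg h0 hp.le)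
  have e1 : 1 + δ / (1 - δ) = (1 - δ)⁻¹ := by field_simp; ring
  have e2 : 2 * (δ / (1 - δ)) / (δ / (1 - δ) + 2) = 2 * (δ / (2 - δ)) := by
    have : 2 - δ ≠ 0 := by linarith
    have h3 : δ / (1 - δ) + 2 = (2 - δ) / (1 - δ) := by field_simp; ring
    rw [h3]
    field_simp
  rw [e1, e2, Real.log_inv] at h
  linarith

theorem regionII (u c x D q α : ℝ) (hu0 : 0 < u) (hu1 : u ≤ 1 / 2) (hx0 : -u ≤ x) (hx1 : x ≤ u)
    (hc0 : 0 ≤ c) (hc1 : c ≤ 1) (hD : 0 ≤ D)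
    (hD2 : D ^ 2 ≤ 1 - (1 - u ^ 2) * (1 - c ^ 2) / (1 + c * x) ^ 2)
    (hq : 0 ≤ q) (hq2 : q ^ 2 * ((1 - u ^ 2) * (1 + c * x)) ≤ u ^ 2 / 4 * (1 - c) ^ 2 * (1 - x))
    (hα0 : 0 ≤ α) (hα : α * u ≤ 1 - u) (hreg : 0 ≤ c + x) :
    D * Real.exp (α * (2 * Real.arsinh q)) ≤ 1 := by
  have hA : 1 / 2 ≤ 1 + c * x := by nlinarith
  have hu2 : 0 < 1 - u ^ 2 := by nlinarith
  have h1u : 0 < 1 - u := by linarith
  have hc2 : 0 ≤ 1 - c ^ 2 := by nlinarith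
  set k := (1 - u ^ 2) * (1 - c ^ 2) with hk
  have hk0 : 0 ≤ k := mul_nonneg hu2.le hc2
  set δ := k / (1 + c * x) ^ 2 with hδ
  have hδ0 : 0 ≤ δ := by positivity
  rcases eq_or_lt_of_le hD with h0 | hDpos
  · rw [← h0]; simp
  have hδ1 : δ < 1 := by nlinarith [pow_pos hDpos 2]
  have hA2 : 0 < (1 + c * x) ^ 2 := by positivity
  have hkA : k < (1 + c * x) ^ 2 := by
    rw [hδ, div_lt_one hA2] at hδ1
    exact hδ1
  have hZ : 0 < 2 * (1 + c * x) ^ 2 - k := by linarith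
  have hquot : δ / (2 - δ) = k / (2 * (1 + c * x) ^ 2 - k) := by
    have h2 : 2 - δ = (2 * (1 + c * x) ^ 2 - k) / (1 + c * x) ^ 2 := by
      rw [hδ]; field_simp
    rw [h2, hδ]
    field_simp
  have hP := P1 u c x hu1 hx0 hx1 hc0 hc1 hreg
  rw [← hk] at hP
  -- 2 α q ≤ δ/(2-δ)
  have hmain : 2 * α * q ≤ δ / (2 - δ) := by
    rw [hquot, le_div_iff₀ hZ]
    apply le_of_sq_le_sq _ hk0
    have hαu : (α * u) ^ 2 ≤ (1 - u) ^ 2 := pow_le_pow_left₀ (by positivity) hα 2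
    have h1 : (2 * α * q * (2 * (1 + c * x) ^ 2 - k)) ^ 2 * ((1 - u ^ 2) * (1 + c * x)) ≤
        k ^ 2 * ((1 - u ^ 2) * (1 + c * x)) := by
      calc (2 * α * q * (2 * (1 + c * x) ^ 2 - k)) ^ 2 * ((1 - u ^ 2) * (1 + c * x))
          = 4 * α ^ 2 * (2 * (1 + c * x) ^ 2 - k) ^ 2 *
              (q ^ 2 * ((1 - u ^ 2) * (1 + c * x))) := by ring
        _ ≤ 4 * α ^ 2 * (2 * (1 + c * x) ^ 2 - k) ^ 2 *
              (u ^ 2 / 4 * (1 - c) ^ 2 * (1 - x)) :=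
            mul_le_mul_of_nonneg_left hq2 (by positivity)
        _ = (α * u) ^ 2 * ((1 - c) ^ 2 * ((1 - x) * (2 * (1 + c * x) ^ 2 - k) ^ 2)) := by ring
        _ ≤ (1 - u) ^ 2 * ((1 - c) ^ 2 * ((1 - x) * (2 * (1 + c * x) ^ 2 - k) ^ 2)) := by
            apply mul_le_mul_of_nonneg_right hαu
            have : 0 ≤ 1 - x := by linarith
            positivity
        _ ≤ (1 - u) ^ 2 * ((1 - c) ^ 2 * ((1 + c) ^ 2 * (1 + c * x) * ((1 + u) ^ 3 * (1 - u)))) := by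
            apply mul_le_mul_of_nonneg_left _ (by positivity)
            exact mul_le_mul_of_nonneg_left hP (by positivity)
        _ = k ^ 2 * ((1 - u ^ 2) * (1 + c * x)) := by rw [hk]; ring
    exact le_of_mul_le_mul_right h1 (by positivity)
  have h5 : α * (2 * Real.arsinh q) ≤ δ / (2 - δ) := by
    calc α * (2 * Real.arsinh q) ≤ α * (2 * q) :=
          mul_le_mul_of_nonneg_left (by linarith [arsinh_le_self hq]) hα0
      _ = 2 * α * q := by ring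
      _ ≤ _ := hmain
  have hlogD : Real.log D ≤ -(δ / (2 - δ)) := by
    have h6 : Real.log (D ^ 2) ≤ Real.log (1 - δ) :=
      Real.log_le_log (by positivity) hD2
    rw [Real.log_pow] at h6
    have := half_log_le hδ0 hδ1
    push_cast at h6
    linarith
  calc D * Real.exp (α * (2 * Real.arsinh q))
      = Real.exp (Real.log D + α * (2 * Real.arsinh q)) := by
        rw [Real.exp_add, Real.exp_log hDpos]
    _ ≤ Real.exp 0 := Real.exp_le_exp.2 (by linarith)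
    _ = 1 := Real.exp_zero

theorem region (u c x D q α : ℝ) (hu0 : 0 < u) (hu1 : u ≤ 1 / 2) (hx0 : -u ≤ x) (hx1 : x ≤ u)
    (hc0 : 0 ≤ c) (hc1 : c ≤ 1) (hD : 0 ≤ D)
    (hD2 : D ^ 2 ≤ 1 - (1 - u ^ 2) * (1 - c ^ 2) / (1 + c * x) ^ 2)
    (hq : 0 ≤ q) (hq2 : q ^ 2 * ((1 - u ^ 2) * (1 + c * x)) ≤ u ^ 2 / 4 * (1 - c) ^ 2 * (1 - x))
    (hα0 : 0 ≤ α) (hα : α * u ≤ 1 - u) :
    D * Real.exp (α * (2 * Real.arsinh q)) ≤ 1 := by
  rcases le_or_gt (c * (1 + x ^ 2)) (-2 * x) with h | h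
  · exact regionI u c x D q α hu0 hu1 hx0 hx1 hc0 hc1 hD2 hq2 hα0 hα h
  · apply regionII u c x D q α hu0 hu1 hx0 hx1 hc0 hc1 hD hD2 hq hq2 hα0 hα
    by_contra hneg
    push Not at hneg
    have hx : x < 0 := by linarith
    nlinarith [sq_nonneg x]


theorem aux_sq {r : ℝ} (h0 : 0 < r) (h1 : r < 1) : 0 < 1 - r ^ 2 := by nlinarith

theorem aux_t {r t : ℝ} (h1 : r < 1) (ht0 : 0 ≤ t) (htr : t ≤ r) :
    2 * t * (1 + r ^ 2) ≤ 2 * r * (1 + t ^ 2) := by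
  have h : 0 ≤ (r - t) * (1 - r * t) := by
    apply mul_nonneg (by linarith)
    have : r * t ≤ 1 * 1 := mul_le_mul h1.le (by linarith) ht0 (by norm_num)
    linarith
  nlinarith

theorem aux_t2 {r t : ℝ} (h1 : r < 1) (ht0 : 0 ≤ t) (htr : t ≤ r) :
    (r + t) * (1 - r) ≤ 2 * (1 - r * t) * (1 + r) := by
  have h2 : (r + t) * (1 - r) ≤ 2 * (1 - r) := by
    apply mul_le_mul_of_nonneg_right _ (by linarith)
    linarith
  have h3 : r * t ≤ r * 1 := mul_le_mul_of_nonneg_left (by linarith) (by linarith)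
  have h4 : 2 * (1 - r) ≤ 2 * (1 - r * t) * (1 + r) := by
    have h5 : 0 ≤ 1 - r * t := by linarith
    have h6 : 0 ≤ r := by linarith
    nlinarith [mul_nonneg h5 h6]
  linarith

theorem aux_c {c d : ℝ} (hc : 0 ≤ c) (hd : 0 ≤ d) : (1 - c) * d ≤ d := by nlinarith

theorem aux_c2 {c : ℝ} (hc0 : 0 ≤ c) (hc1 : c ≤ 1) : 0 ≤ 1 - c ^ 2 := by nlinarith

theorem aux_P {a b c t : ℝ} (ht : t ^ 2 = b) (ht0 : 0 ≤ t) (hc0 : 0 ≤ c) (hc1 : c ≤ 1)
    (hat1 : -t ≤ a) : 0 ≤ 1 + b + 2 * c * a := by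
  have h1 : c * (-t) ≤ c * a := mul_le_mul_of_nonneg_left hat1 hc0
  have h2 : c * t ≤ 1 * t := mul_le_mul_of_nonneg_right hc1 ht0
  nlinarith [sq_nonneg (1 - t)]

/-- The key inequality in the variables `a = Re X`, `b = |X|^2`. -/
theorem key (r α c a b n q M : ℝ) (hr0 : 0 < r) (hr1 : r < 1) (hr2 : 4 * r ≤ 1 + r ^ 2)
    (hα0 : 0 ≤ α) (hα : 2 * r * α ≤ (1 - r) ^ 2) (hc0 : 0 ≤ c) (hc1 : c ≤ 1)
    (hb : b ≤ r ^ 2) (hab : a ^ 2 ≤ b) (hn : 0 ≤ n)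
    (hn2 : n ^ 2 = (1 + b + 2 * c * a) ^ 2 - (1 - b) ^ 2 * (1 - c ^ 2))
    (hM : M = 1 + 2 * c * a + c ^ 2 * b - r ^ 2 * (c ^ 2 + 2 * c * a + b)) (hMpos : 0 < M)
    (hq : 0 ≤ q) (hq2 : q ^ 2 * ((1 - r ^ 2) * M) = r ^ 2 * (1 - c) ^ 2 * (1 - 2 * a + b)) :
    (n * (1 - r ^ 2) + (1 - c ^ 2) * (r ^ 2 - b)) / M * Real.exp (α * (2 * Real.arsinh q)) ≤ 1 := by
  have hb0 : 0 ≤ b := le_trans (sq_nonneg a) hab
  have hr3 : 0 < 1 - r ^ 2 := aux_sq hr0 hr1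
  have hr4 : 0 < 1 + r ^ 2 := by positivity
  have hb1 : b < 1 := by linarith
  -- parameters
  set h := (1 - c) * (r ^ 2 - b) / (1 - r ^ 2) with hh
  have hh0 : 0 ≤ h := div_nonneg (mul_nonneg (by linarith) (by linarith)) hr3.le
  have hhmul : h * (1 - r ^ 2) = (1 - c) * (r ^ 2 - b) := by
    rw [hh, div_mul_cancel₀ _ hr3.ne']
  set u := 2 * r / (1 + r ^ 2) with hu
  have hu0 : 0 < u := by positivity
  have hu1 : u ≤ 1 / 2 := by rw [hu, div_le_iff₀ hr4]; linarith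
  have humul : u * (1 + r ^ 2) = 2 * r := by rw [hu, div_mul_cancel₀ _ hr4.ne']
  have hu2 : 1 - u ^ 2 = (1 - r ^ 2) ^ 2 / (1 + r ^ 2) ^ 2 := by
    rw [hu]; field_simp; ring
  set Q := 1 + b + h with hQ
  have hQpos : 0 < Q := by positivity
  set x := (2 * a + h) / Q with hx
  have hxmul : x * Q = 2 * a + h := by rw [hx, div_mul_cancel₀ _ hQpos.ne']
  -- |a| ≤ r
  obtain ⟨t, ht0, ht2⟩ : ∃ t, 0 ≤ t ∧ t ^ 2 = b := ⟨Real.sqrt b, Real.sqrt_nonneg _, Real.sq_sqrt hb0⟩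
  have htr : t ≤ r := by
    apply le_of_sq_le_sq _ hr0.le
    rw [ht2]; exact hb
  have hat : |a| ≤ t := by
    apply abs_le_of_sq_le_sq _ ht0
    rw [ht2]; exact hab
  have hat1 := (abs_le.1 hat).1
  have hat2 := (abs_le.1 hat).2
  have hx0 : -u ≤ x := by
    rw [hx, le_div_iff₀ hQpos]
    -- -u Q ≤ 2a + h
    have h1 : 2 * t ≤ u * (1 + b) := by
      have : 2 * t * (1 + r ^ 2) ≤ 2 * r * (1 + b) := by
        rw [← ht2]; exact aux_t hr1 ht0 htr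
      have h2 : 2 * t * (1 + r ^ 2) ≤ u * (1 + b) * (1 + r ^ 2) := by
        calc _ ≤ _ := this
          _ = _ := by rw [← humul]; ring
      exact le_of_mul_le_mul_right h2 hr4
    have h3 : 0 ≤ u * h := by positivity
    have h4 : -u * Q = -(u * (1 + b)) - u * h := by rw [hQ]; ring
    rw [h4]
    linarith
  have hx1 : x ≤ u := by
    rw [hx, div_le_iff₀ hQpos]
    -- 2a + h ≤ u (1+b+h)
    have h1 : h * (1 - r ^ 2) ≤ r ^ 2 - b := by
      rw [hhmul]; exact aux_c hc0 (by linarith)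
    -- h (1-u) ≤ u(1+b) - 2t
    have h2 : h * (1 - u) ≤ u * (1 + b) - 2 * t := by
      have h1u : (1 - u) * (1 + r ^ 2) = (1 - r) ^ 2 := by
        have : (1 - u) * (1 + r ^ 2) = 1 + r ^ 2 - u * (1 + r ^ 2) := by ring
        rw [this, humul]; ring
      have h3 : h * (1 - u) * ((1 - r ^ 2) * (1 + r ^ 2)) ≤
          (u * (1 + b) - 2 * t) * ((1 - r ^ 2) * (1 + r ^ 2)) := by
        calc h * (1 - u) * ((1 - r ^ 2) * (1 + r ^ 2)) =
              (h * (1 - r ^ 2)) * ((1 - u) * (1 + r ^ 2)) := by ring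
          _ = (h * (1 - r ^ 2)) * (1 - r) ^ 2 := by rw [h1u]
          _ ≤ (r ^ 2 - b) * (1 - r) ^ 2 := mul_le_mul_of_nonneg_right h1 (by positivity)
          _ = (r - t) * ((r + t) * (1 - r)) * (1 - r) := by rw [← ht2]; ring
          _ ≤ (r - t) * (2 * (1 - r * t) * (1 + r)) * (1 - r) := by
              apply mul_le_mul_of_nonneg_right _ (by linarith)
              apply mul_le_mul_of_nonneg_left _ (by linarith)
              exact aux_t2 hr1 ht0 htr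
          _ = (2 * r * (1 + t ^ 2) - 2 * t * (1 + r ^ 2)) * (1 - r ^ 2) := by ring
          _ = (u * (1 + b) - 2 * t) * ((1 - r ^ 2) * (1 + r ^ 2)) := by
              rw [← humul, ht2]; ring
      exact le_of_mul_le_mul_right h3 (by positivity)
    have h4 : u * Q = u * (1 + b) + u * h := by rw [hQ]; ring
    rw [h4]
    linarith
  -- 1 + c x = (P + S)/Q,  M = (1-r²)(P+S)
  have hMfac : M = (1 - r ^ 2) * (1 + b + 2 * c * a + (1 + c) * h) := by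
    have : (1 - r ^ 2) * (1 + b + 2 * c * a + (1 + c) * h) =
        (1 - r ^ 2) * (1 + b + 2 * c * a) + (1 + c) * (h * (1 - r ^ 2)) := by ring
    rw [this, hhmul, hM]; ring
  set V := 1 + b + 2 * c * a + (1 + c) * h with hV
  have hVpos : 0 < V := by
    rw [hMfac] at hMpos
    exact (mul_pos_iff_of_pos_left hr3).1 hMpos
  have hcxQ : (1 + c * x) * Q = V := by
    have : (1 + c * x) * Q = Q + c * (x * Q) := by ring
    rw [this, hxmul, hQ, hV]; ring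
  have hcx : 1 + c * x = V / Q := by rw [← hcxQ, mul_div_cancel_right₀ _ hQpos.ne']
  have h1x : (1 - x) * Q = 1 + b - 2 * a := by
    have : (1 - x) * Q = Q - x * Q := by ring
    rw [this, hxmul, hQ]; ring
  -- the quotient D
  have hDeq : (n * (1 - r ^ 2) + (1 - c ^ 2) * (r ^ 2 - b)) / M = (n + (1 + c) * h) / V := by
    rw [hMfac]
    have : n * (1 - r ^ 2) + (1 - c ^ 2) * (r ^ 2 - b) = (1 - r ^ 2) * (n + (1 + c) * h) := by
      have e : (1 - r ^ 2) * (n + (1 + c) * h) = n * (1 - r ^ 2) + (1 + c) * (h * (1 - r ^ 2)) := by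
        ring
      rw [e, hhmul]; ring
    rw [this, mul_div_mul_left _ _ hr3.ne']
  rw [hDeq]
  have hS0 : 0 ≤ (1 + c) * h := by positivity
  have hD0 : 0 ≤ (n + (1 + c) * h) / V := by positivity
  have hP0 : 0 ≤ 1 + b + 2 * c * a := aux_P ht2 ht0 hc0 hc1 hat1
  have hnP : n ≤ 1 + b + 2 * c * a := by
    apply le_of_sq_le_sq _ hP0
    rw [hn2]
    have : 0 ≤ (1 - b) ^ 2 * (1 - c ^ 2) := mul_nonneg (sq_nonneg _) (aux_c2 hc0 hc1)
    linarith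
  have hD2 : ((n + (1 + c) * h) / V) ^ 2 ≤ 1 - (1 - u ^ 2) * (1 - c ^ 2) / (1 + c * x) ^ 2 := by
    clear_value u x V Q h
    rw [hcx, div_pow, div_pow, div_div_eq_mul_div, ← sub_nonneg]
    have e : 1 - (1 - u ^ 2) * (1 - c ^ 2) * Q ^ 2 / V ^ 2 - (n + (1 + c) * h) ^ 2 / V ^ 2 =
        (V ^ 2 - (1 - u ^ 2) * (1 - c ^ 2) * Q ^ 2 - (n + (1 + c) * h) ^ 2) / V ^ 2 := by
      field_simp
    rw [e]
    apply div_nonneg _ (by positivity)
    -- (1-u²) Q² ≤ (1-b)²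
    have hQb : (1 - u ^ 2) * Q ^ 2 ≤ (1 - b) ^ 2 := by
      rw [hu2, div_mul_eq_mul_div, div_le_iff₀ (by positivity), ← mul_pow, ← mul_pow]
      apply pow_le_pow_left₀ (by positivity)
      have h1 : h * (1 - r ^ 2) ≤ r ^ 2 - b := by
        rw [hhmul]; exact aux_c hc0 (by linarith)
      have : (1 - r ^ 2) * Q = (1 - r ^ 2) * (1 + b) + h * (1 - r ^ 2) := by rw [hQ]; ring
      rw [this]
      have h2 : (1 - r ^ 2) * (1 + b) + (r ^ 2 - b) ≤ (1 - b) * (1 + r ^ 2) := by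
        have : (1 - b) * (1 + r ^ 2) - ((1 - r ^ 2) * (1 + b) + (r ^ 2 - b)) = r ^ 2 - b := by ring
        linarith
      linarith
    have h3 : (1 - u ^ 2) * (1 - c ^ 2) * Q ^ 2 ≤ (1 - b) ^ 2 * (1 - c ^ 2) := by
      have : (1 - u ^ 2) * (1 - c ^ 2) * Q ^ 2 = (1 - u ^ 2) * Q ^ 2 * (1 - c ^ 2) := by ring
      rw [this]
      exact mul_le_mul_of_nonneg_right hQb (aux_c2 hc0 hc1)
    have h4 : (n + (1 + c) * h) ^ 2 = n ^ 2 + 2 * ((1 + c) * h) * n + ((1 + c) * h) ^ 2 := by ring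
    have h5 : V ^ 2 = (1 + b + 2 * c * a) ^ 2 + 2 * ((1 + c) * h) * (1 + b + 2 * c * a) +
        ((1 + c) * h) ^ 2 := by rw [hV]; ring
    have h6 : 2 * ((1 + c) * h) * n ≤ 2 * ((1 + c) * h) * (1 + b + 2 * c * a) :=
      mul_le_mul_of_nonneg_left hnP (by positivity)
    rw [h4, h5, hn2]
    linarith
  have hq3 : q ^ 2 * ((1 - u ^ 2) * (1 + c * x)) ≤ u ^ 2 / 4 * (1 - c) ^ 2 * (1 - x) := by
    apply le_of_eq
    have h1 : q ^ 2 * ((1 - r ^ 2) ^ 2 * V) = r ^ 2 * (1 - c) ^ 2 * (1 - 2 * a + b) := by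
      rw [← hq2, hMfac]; ring
    have h2 : u ^ 2 * (1 + r ^ 2) ^ 2 = 4 * r ^ 2 := by
      rw [← mul_pow, humul]; ring
    have h3 : (1 - u ^ 2) * (1 + r ^ 2) ^ 2 = (1 - r ^ 2) ^ 2 := by
      rw [hu2, div_mul_cancel₀ _ (by positivity)]
    have hne : (1 + r ^ 2) ^ 2 * Q ≠ 0 := by positivity
    apply mul_right_cancel₀ hne
    calc q ^ 2 * ((1 - u ^ 2) * (1 + c * x)) * ((1 + r ^ 2) ^ 2 * Q)
        = q ^ 2 * (((1 - u ^ 2) * (1 + r ^ 2) ^ 2) * ((1 + c * x) * Q)) := by ring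
      _ = q ^ 2 * ((1 - r ^ 2) ^ 2 * V) := by rw [h3, hcxQ]
      _ = r ^ 2 * (1 - c) ^ 2 * (1 - 2 * a + b) := h1
      _ = (u ^ 2 * (1 + r ^ 2) ^ 2) / 4 * (1 - c) ^ 2 * ((1 - x) * Q) := by
          rw [h2, h1x]; ring
      _ = _ := by ring
  have hα2 : α * u ≤ 1 - u := by
    have h1u : (1 - u) * (1 + r ^ 2) = (1 - r) ^ 2 := by
      have : (1 - u) * (1 + r ^ 2) = 1 + r ^ 2 - u * (1 + r ^ 2) := by ring
      rw [this, humul]; ring
    have : α * u * (1 + r ^ 2) ≤ (1 - u) * (1 + r ^ 2) := by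
      calc α * u * (1 + r ^ 2) = α * (u * (1 + r ^ 2)) := by ring
        _ = 2 * r * α := by rw [humul]; ring
        _ ≤ (1 - r) ^ 2 := hα
        _ = _ := h1u.symm
    exact le_of_mul_le_mul_right this hr4
  exact region u c x _ q α hu0 hu1 hx0 hx1 hc0 hc1 hD0 hD2 hq hq3 hα0 hα2

end Run7.h196.Camp
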