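import Mathlib

set_option autoImplicit false

namespace Run7.h196.Camp

open Complex Metric Set
open scoped ComplexConjugate

theorem normSq_mob (z ζ : ℂ) :
    ‖1 + conj z * ζ‖ ^ 2 - ‖ζ + z‖ ^ 2 = (1 - ‖z‖ ^ 2) * (1 - ‖ζ‖ ^ 2) := by
  simp only [← Complex.normSq_eq_norm_sq, Complex.normSq_apply, Complex.add_re, Complex.add_im,
    Complex.mul_re, Complex.mul_im, Complex.conj_re, Complex.conj_im, Complex.one_re, Complex.one_im]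
  ring

theorem den_ne {z ζ : ℂ} (hz : ‖z‖ < 1) (hζ : ‖ζ‖ ≤ 1) : 1 + conj z * ζ ≠ 0 := by
  intro h0
  have h1 : conj z * ζ = -1 := by linear_combination h0
  have h2 : ‖conj z * ζ‖ = 1 := by rw [h1]; simp
  rw [norm_mul, Complex.norm_conj] at h2
  nlinarith [norm_nonneg z, norm_nonneg ζ]

theorem mob_norm_le {z ζ : ℂ} (hz : ‖z‖ < 1) (hζ : ‖ζ‖ ≤ 1) :
    ‖(ζ + z) / (1 + conj z * ζ)‖ ≤ 1 := by
  have hd := norm_pos_iff.2 (den_ne hz hζ)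
  rw [norm_div, div_le_one hd]
  apply le_of_sq_le_sq _ hd.le
  have h := normSq_mob z ζ
  have : 0 ≤ (1 - ‖z‖ ^ 2) * (1 - ‖ζ‖ ^ 2) := by
    apply mul_nonneg <;> nlinarith [norm_nonneg z, norm_nonneg ζ]
  linarith

theorem mob_norm_lt {z ζ : ℂ} (hz : ‖z‖ < 1) (hζ : ‖ζ‖ < 1) :
    ‖(ζ + z) / (1 + conj z * ζ)‖ < 1 := by
  have hd := norm_pos_iff.2 (den_ne hz hζ.le)
  rw [norm_div, div_lt_one hd]
  apply lt_of_pow_lt_pow_left₀ 2 hd.le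
  have h := normSq_mob z ζ
  have : 0 < (1 - ‖z‖ ^ 2) * (1 - ‖ζ‖ ^ 2) := by
    apply mul_pos <;> nlinarith [norm_nonneg z, norm_nonneg ζ]
  linarith

theorem schwarz_pick_lt (g : ℂ → ℂ) (hg : DifferentiableOn ℂ g (ball 0 1))
    (hm : ∀ ζ ∈ ball (0 : ℂ) 1, ‖g ζ‖ < 1) {z : ℂ} (hz : ‖z‖ < 1) :
    (1 - ‖z‖ ^ 2) * ‖deriv g z‖ ≤ 1 - ‖g z‖ ^ 2 := by
  have hzb : z ∈ ball (0 : ℂ) 1 := by simpa using hz
  have hb : ‖g z‖ < 1 := hm z hzb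
  have hbn : ‖-(g z)‖ < 1 := by rwa [norm_neg]
  set m : ℂ → ℂ := fun ζ => (ζ + z) / (1 + conj z * ζ) with hmdef
  set μ : ℂ → ℂ := fun v => (v + -(g z)) / (1 + conj (-(g z)) * v) with hμdef
  have hm0 : m 0 = z := by simp [hmdef]
  have hmder : ∀ ζ ∈ ball (0 : ℂ) 1, HasDerivAt m ((1 - (‖z‖ : ℂ) ^ 2) / (1 + conj z * ζ) ^ 2) ζ := by
    intro ζ hζ
    have hζ' : ‖ζ‖ < 1 := by simpa using hζ
    have h1 : HasDerivAt (fun s : ℂ => s + z) 1 ζ := (hasDerivAt_id ζ).add_const z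
    have h2 : HasDerivAt (fun s : ℂ => 1 + conj z * s) (conj z) ζ := by
      simpa using ((hasDerivAt_id ζ).const_mul (conj z)).const_add 1
    refine (h1.div h2 (den_ne hz hζ'.le)).congr_deriv ?_
    congr 1
    have hzz : conj z * z = (‖z‖ : ℂ) ^ 2 := Complex.conj_mul' z
    rw [← hzz]; ring
  have hμder : ∀ v ∈ ball (0 : ℂ) 1, HasDerivAt μ ((1 - (‖g z‖ : ℂ) ^ 2) / (1 + conj (-(g z)) * v) ^ 2) v := by
    intro ζ hζ
    have hζ' : ‖ζ‖ < 1 := by simpa using hζ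
    have h1 : HasDerivAt (fun s : ℂ => s + -(g z)) 1 ζ := (hasDerivAt_id ζ).add_const _
    have h2 : HasDerivAt (fun s : ℂ => 1 + conj (-(g z)) * s) (conj (-(g z))) ζ := by
      simpa using ((hasDerivAt_id ζ).const_mul (conj (-(g z)))).const_add 1
    refine (h1.div h2 (den_ne hbn hζ'.le)).congr_deriv ?_
    congr 1
    have hzz : conj (g z) * (g z) = (‖g z‖ : ℂ) ^ 2 := Complex.conj_mul' _
    rw [← hzz, map_neg]; ring
  have hmmem : ∀ ζ ∈ ball (0 : ℂ) 1, m ζ ∈ ball (0 : ℂ) 1 := by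
    intro ζ hζ
    rw [mem_ball_zero_iff] at hζ ⊢
    exact mob_norm_lt hz hζ
  set G : ℂ → ℂ := fun ζ => μ (g (m ζ)) with hG
  have hGder : ∀ ζ ∈ ball (0 : ℂ) 1, HasDerivAt G
      ((1 - (‖g z‖ : ℂ) ^ 2) / (1 + conj (-(g z)) * (g (m ζ))) ^ 2 *
        (deriv g (m ζ) * ((1 - (‖z‖ : ℂ) ^ 2) / (1 + conj z * ζ) ^ 2))) ζ := by
    intro ζ hζ
    have h1 := hmder ζ hζ
    have h2 : HasDerivAt g (deriv g (m ζ)) (m ζ) :=
      (hg.differentiableAt (isOpen_ball.mem_nhds (hmmem ζ hζ))).hasDerivAt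
    have h3 := hμder (g (m ζ)) (by rw [mem_ball_zero_iff]; exact hm _ (hmmem ζ hζ))
    exact h3.comp ζ (h2.comp ζ h1)
  have hG0 : G 0 = 0 := by simp [hG, hm0, hμdef]
  have hGd : DifferentiableOn ℂ G (ball 0 1) := fun ζ hζ =>
    (hGder ζ hζ).differentiableAt.differentiableWithinAt
  have hGm : MapsTo G (ball 0 1) (closedBall (G 0) 1) := by
    intro ζ hζ
    rw [hG0, mem_closedBall_zero_iff]
    exact mob_norm_le hbn (hm _ (hmmem ζ hζ)).le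
  have h := Complex.norm_deriv_le_one_of_mapsTo_ball hGd hGm one_pos
  have h0 : (0 : ℂ) ∈ ball (0 : ℂ) 1 := by simp
  rw [(hGder 0 h0).deriv, hm0] at h
  have hz2 : 0 < 1 - ‖z‖ ^ 2 := by nlinarith [norm_nonneg z]
  have hb2 : 0 < 1 - ‖g z‖ ^ 2 := by nlinarith [norm_nonneg (g z)]
  have e1 : (1 : ℂ) - (‖z‖ : ℂ) ^ 2 = ((1 - ‖z‖ ^ 2 : ℝ) : ℂ) := by push_cast; ring
  have e2 : (1 : ℂ) - (‖g z‖ : ℂ) ^ 2 = ((1 - ‖g z‖ ^ 2 : ℝ) : ℂ) := by push_cast; ring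
  have e3 : 1 + conj (-(g z)) * (g z) = ((1 - ‖g z‖ ^ 2 : ℝ) : ℂ) := by
    rw [map_neg, neg_mul, Complex.conj_mul']; push_cast; ring
  rw [e1, e2, e3] at h
  rw [mul_zero, add_zero, one_pow, div_one, norm_mul, norm_div, norm_mul, norm_pow,
    Complex.norm_real, Complex.norm_real, Real.norm_of_nonneg hb2.le, Real.norm_of_nonneg hz2.le] at h
  have h5 : (1 - ‖g z‖ ^ 2) / (1 - ‖g z‖ ^ 2) ^ 2 * (‖deriv g z‖ * (1 - ‖z‖ ^ 2)) =
      ((1 - ‖z‖ ^ 2) * ‖deriv g z‖) / (1 - ‖g z‖ ^ 2) := by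
    field_simp
  rw [h5, div_le_one hb2] at h
  exact h

theorem schwarz_pick (g : ℂ → ℂ) (hg : DifferentiableOn ℂ g (ball 0 1))
    (hm : ∀ ζ ∈ ball (0 : ℂ) 1, ‖g ζ‖ ≤ 1) {z : ℂ} (hz : ‖z‖ < 1) :
    (1 - ‖z‖ ^ 2) * ‖deriv g z‖ ≤ 1 - ‖g z‖ ^ 2 := by
  have hzb : z ∈ ball (0 : ℂ) 1 := by simpa using hz
  have hgz : DifferentiableAt ℂ g z := hg.differentiableAt (isOpen_ball.mem_nhds hzb)
  have key : ∀ t : ℝ, t ∈ Ioo (0 : ℝ) 1 →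
      (1 - ‖z‖ ^ 2) * (t * ‖deriv g z‖) ≤ 1 - (t * ‖g z‖) ^ 2 := by
    intro t ht
    have h1 : DifferentiableOn ℂ (fun ζ => (t : ℂ) * g ζ) (ball 0 1) := hg.const_mul _
    have h2 : ∀ ζ ∈ ball (0 : ℂ) 1, ‖(t : ℂ) * g ζ‖ < 1 := by
      intro ζ hζ
      rw [norm_mul, Complex.norm_real, Real.norm_of_nonneg ht.1.le]
      nlinarith [hm ζ hζ, ht.1, ht.2, norm_nonneg (g ζ)]
    have h3 := schwarz_pick_lt _ h1 h2 hz
    rw [deriv_const_mul _ hgz] at h3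
    simpa [norm_mul, Complex.norm_real, Real.norm_of_nonneg ht.1.le] using h3
  have hne : (nhdsWithin (1 : ℝ) (Ioo 0 1)).NeBot := by
    apply mem_closure_iff_nhdsWithin_neBot.1
    rw [closure_Ioo (by norm_num)]
    exact ⟨by norm_num, le_rfl⟩
  have hl : Filter.Tendsto (fun t : ℝ => (1 - ‖z‖ ^ 2) * (t * ‖deriv g z‖)) (nhdsWithin 1 (Ioo 0 1))
      (nhds ((1 - ‖z‖ ^ 2) * (1 * ‖deriv g z‖))) := by
    apply Filter.Tendsto.mono_left _ nhdsWithin_le_nhds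
    apply Continuous.tendsto
    fun_prop
  have hr : Filter.Tendsto (fun t : ℝ => 1 - (t * ‖g z‖) ^ 2) (nhdsWithin 1 (Ioo 0 1))
      (nhds (1 - (1 * ‖g z‖) ^ 2)) := by
    apply Filter.Tendsto.mono_left _ nhdsWithin_le_nhds
    apply Continuous.tendsto
    fun_prop
  have := le_of_tendsto_of_tendsto hl hr (by
    filter_upwards [self_mem_nhdsWithin] with t ht using key t ht)
  simpa using this

end Run7.h196.Camp
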