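import Mathlib
import Pool.Agent.Run7.h196.Camp.Key
import Pool.Agent.Run7.h196.Camp.Dist
import Pool.Agent.Run7.h196.Camp.Schw

set_option autoImplicit false

namespace Run7.h196.Camp

open Complex Metric Set Filter
open scoped ComplexConjugate Topology

/-- Structure of a Schwarz function `w` with `w'(0) = c ∈ [0,1)`. -/
theorem schwarz_structure (w : ℂ → ℂ) (hw : DifferentiableOn ℂ w (ball 0 1))
    (hwn : ∀ ζ ∈ ball (0 : ℂ) 1, ‖w ζ‖ ≤ ‖ζ‖) (c : ℝ) (hc0 : 0 ≤ c) (hc : deriv w 0 = c) :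
    (∀ ζ ∈ ball (0 : ℂ) 1, w ζ = ζ) ∨
    (c < 1 ∧ ∃ ψ : ℂ → ℂ, DifferentiableOn ℂ ψ (ball 0 1) ∧ (∀ ζ ∈ ball (0 : ℂ) 1, ‖ψ ζ‖ ≤ 1) ∧
      ∀ ζ ∈ ball (0 : ℂ) 1, w ζ = ζ * ((c + ζ * ψ ζ) / (1 + c * (ζ * ψ ζ)))) := by
  have h0 : (0 : ℂ) ∈ ball (0 : ℂ) 1 := by simp
  have hw0 : w 0 = 0 := by
    have := hwn 0 h0
    simpa using this
  have hwm : MapsTo w (ball 0 1) (closedBall (w 0) 1) := by
    intro ζ hζ
    rw [hw0, mem_closedBall_zero_iff]
    have h1 := hwn ζ hζ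
    rw [mem_ball_zero_iff] at hζ
    linarith
  set φ := dslope w 0 with hφ
  have hφ0 : φ 0 = c := by rw [hφ, dslope_same, hc]
  have hφd : DifferentiableOn ℂ φ (ball 0 1) :=
    (Complex.differentiableOn_dslope (isOpen_ball.mem_nhds h0)).2 hw
  have hφn : ∀ ζ ∈ ball (0 : ℂ) 1, ‖φ ζ‖ ≤ 1 := by
    intro ζ hζ
    simpa using Complex.norm_dslope_le_div_of_mapsTo_ball hw hwm hζ
  have hwφ : ∀ ζ : ℂ, w ζ = ζ * φ ζ := by
    intro ζ
    have := sub_smul_dslope w 0 ζ
    rw [hw0, sub_zero, sub_zero, smul_eq_mul] at this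
    rw [hφ]; exact this.symm
  have hc1 : c ≤ 1 := by
    have := hφn 0 h0
    rw [hφ0, Complex.norm_real, Real.norm_of_nonneg hc0] at this
    exact this
  rcases eq_or_lt_of_le hc1 with h1 | h1
  · left
    have heq : ‖dslope w 0 0‖ = 1 / 1 := by
      rw [← hφ, hφ0, h1]; simp
    have := Complex.affine_of_mapsTo_ball_of_norm_dslope_eq_div hw hwm h0 heq
    intro ζ hζ
    have h2 := this hζ
    simp only [] at h2
    rw [h2, ← hφ, hφ0, hw0, h1]
    simp
  · right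
    refine ⟨h1, ?_⟩
    have hcn : ‖((-c : ℝ) : ℂ)‖ < 1 := by
      rw [Complex.norm_real, norm_neg, Real.norm_of_nonneg hc0]; exact h1
    set Y : ℂ → ℂ := fun ζ => (φ ζ + ((-c : ℝ) : ℂ)) / (1 + conj ((-c : ℝ) : ℂ) * φ ζ) with hY
    have hYn : ∀ ζ ∈ ball (0 : ℂ) 1, ‖Y ζ‖ ≤ 1 := fun ζ hζ => mob_norm_le hcn (hφn ζ hζ)
    have hYd : DifferentiableOn ℂ Y (ball 0 1) := by
      apply DifferentiableOn.div (hφd.add_const _) ((hφd.const_mul _).const_add _)
      intro ζ hζ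
      exact den_ne hcn (hφn ζ hζ)
    have hY0 : Y 0 = 0 := by simp [hY, hφ0]
    have hYm : MapsTo Y (ball 0 1) (closedBall (Y 0) 1) := by
      intro ζ hζ
      rw [hY0, mem_closedBall_zero_iff]
      exact hYn ζ hζ
    refine ⟨dslope Y 0, (Complex.differentiableOn_dslope (isOpen_ball.mem_nhds h0)).2 hYd, ?_, ?_⟩
    · intro ζ hζ
      simpa using Complex.norm_dslope_le_div_of_mapsTo_ball hYd hYm hζ
    · intro ζ hζ
      have hYψ : ζ * dslope Y 0 ζ = Y ζ := by
        have := sub_smul_dslope Y 0 ζ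
        rw [hY0, sub_zero, sub_zero, smul_eq_mul] at this
        exact this
      rw [hYψ, hwφ ζ]
      congr 1
      have hd := den_ne hcn (hφn ζ hζ)
      have hYe : Y ζ * (1 + conj ((-c : ℝ) : ℂ) * φ ζ) = φ ζ + ((-c : ℝ) : ℂ) := by
        simp only [hY]
        rw [div_mul_cancel₀ _ hd]
      rw [Complex.conj_ofReal] at hYe
      push_cast at hYe
      have hd2 : (1 : ℂ) + c * Y ζ ≠ 0 := by
        have h3 : ‖((c : ℝ) : ℂ)‖ < 1 := by
          rw [Complex.norm_real, Real.norm_of_nonneg hc0]; exact h1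
        have := den_ne h3 (hYn ζ hζ)
        rwa [Complex.conj_ofReal] at this
      rw [eq_div_iff hd2]
      linear_combination (-1 : ℂ) * hYe

/-- Campbell's inequality at a point of the disc `|z| < ρ(α)`. -/
theorem campbell_point (F w : ℂ → ℂ) (α : ℝ) (hα0 : 0 ≤ α) (hF : DifferentiableOn ℂ F (ball 0 1))
    (hF' : ∀ z ∈ ball (0 : ℂ) 1, deriv F z ≠ 0)
    (hord : ∀ z ∈ ball (0 : ℂ) 1,
      ‖-(conj z) + (1 - (‖z‖ : ℂ) ^ 2) * deriv (deriv F) z / (2 * deriv F z)‖ ≤ α)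
    (hw : DifferentiableOn ℂ w (ball 0 1))
    (hwn : ∀ ζ ∈ ball (0 : ℂ) 1, ‖w ζ‖ ≤ ‖ζ‖) (c : ℝ) (hc0 : 0 ≤ c) (hc : deriv w 0 = c)
    {z : ℂ} (hz : ‖z‖ < 1) (hz2 : 4 * ‖z‖ ≤ 1 + ‖z‖ ^ 2) (hz3 : 2 * ‖z‖ * α ≤ (1 - ‖z‖) ^ 2) :
    ‖deriv F (w z) * deriv w z‖ ≤ ‖deriv F z‖ := by
  have hzb : z ∈ ball (0 : ℂ) 1 := by simpa using hz
  rcases schwarz_structure w hw hwn c hc0 hc with hid | ⟨hc1, ψ, hψd, hψn, hwψ⟩
  · have h1 : w =ᶠ[𝓝 z] fun ζ => ζ := by
      filter_upwards [isOpen_ball.mem_nhds hzb] with ζ hζ using hid ζ hζ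
    rw [h1.deriv_eq, hid z hzb]
    simp
  · rcases eq_or_lt_of_le (norm_nonneg z) with hr0 | hr0
    · have hz0 : z = 0 := norm_eq_zero.1 hr0.symm
      subst hz0
      have hw0 : w 0 = 0 := by
        have := hwn 0 hzb
        simpa using this
      rw [hw0, hc, norm_mul, Complex.norm_real, Real.norm_of_nonneg hc0]
      nlinarith [norm_nonneg (deriv F 0)]
    · -- main case
      set r := ‖z‖ with hr
      have hψz : DifferentiableAt ℂ ψ z := hψd.differentiableAt (isOpen_ball.mem_nhds hzb)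
      set X : ℂ := z * ψ z with hX
      have hXr : ‖X‖ ≤ r := by
        rw [hX, norm_mul]
        nlinarith [hψn z hzb, norm_nonneg z]
      have hX1 : ‖X‖ ≤ 1 := by linarith
      have hcn : ‖((c : ℝ) : ℂ)‖ < 1 := by
        rw [Complex.norm_real, Real.norm_of_nonneg hc0]; exact hc1
      have hden : (1 : ℂ) + c * X ≠ 0 := by
        have := den_ne hcn hX1
        rwa [Complex.conj_ofReal] at this
      have hdpos : 0 < ‖(1 : ℂ) + c * X‖ := norm_pos_iff.2 hden
      -- derivative of w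
      set ψ' := deriv ψ z with hψ'
      have hwder : HasDerivAt w ((c * (1 + X ^ 2) + 2 * X + (1 - (c : ℂ) ^ 2) * (z ^ 2 * ψ')) /
          (1 + c * X) ^ 2) z := by
        have h1 : HasDerivAt (fun ζ => ζ * ψ ζ) (1 * ψ z + z * ψ') z :=
          (hasDerivAt_id z).mul hψz.hasDerivAt
        have h2 : HasDerivAt (fun ζ => (c : ℂ) + ζ * ψ ζ) (1 * ψ z + z * ψ') z := h1.const_add _
        have h3 : HasDerivAt (fun ζ => 1 + (c : ℂ) * (ζ * ψ ζ)) (c * (1 * ψ z + z * ψ')) z :=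
          (h1.const_mul _).const_add _
        have h4 := (hasDerivAt_id z).mul (h2.div h3 hden)
        have h5 : w =ᶠ[𝓝 z] fun ζ => ζ * ((c + ζ * ψ ζ) / (1 + c * (ζ * ψ ζ))) := by
          filter_upwards [isOpen_ball.mem_nhds hzb] with ζ hζ using hwψ ζ hζ
        refine HasDerivAt.congr_of_eventuallyEq (HasDerivAt.congr_deriv h4 ?_) h5
        simp only [id, Pi.div_apply]
        rw [← hX]
        have : z * ((1 * ψ z + z * ψ') * (1 + (c : ℂ) * X) - (c + X) * (c * (1 * ψ z + z * ψ'))) =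
            (1 - (c : ℂ) ^ 2) * (X + z ^ 2 * ψ') := by
          rw [hX]; ring
        rw [one_mul, ← mul_div_assoc, this, ← sub_eq_zero]
        field_simp
        ring
      have hwz : w z = z * ((c + X) / (1 + c * X)) := hwψ z hzb
      -- Schwarz–Pick for ψ
      have hsp := schwarz_pick ψ hψd hψn hz
      rw [← hψ', ← hr] at hsp
      -- notation
      set a := X.re with ha
      set b := ‖X‖ ^ 2 with hb
      have hbre : b = X.re ^ 2 + X.im ^ 2 := by
        rw [hb, ← Complex.normSq_eq_norm_sq, Complex.normSq_apply]; ring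
      have hab : a ^ 2 ≤ b := by rw [hbre, ha]; nlinarith [sq_nonneg X.im]
      have hbr : b ≤ r ^ 2 := by rw [hb]; exact pow_le_pow_left₀ (norm_nonneg _) hXr 2
      set n := ‖(c : ℂ) * (1 + X ^ 2) + 2 * X‖ with hn
      have hn2 : n ^ 2 = (1 + b + 2 * c * a) ^ 2 - (1 - b) ^ 2 * (1 - c ^ 2) := by
        rw [hn, ← Complex.normSq_eq_norm_sq, hbre, ha]
        simp only [Complex.normSq_apply, Complex.add_re, Complex.add_im, Complex.mul_re,
          Complex.mul_im, Complex.ofReal_re, Complex.ofReal_im, Complex.one_re, Complex.one_im,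
          pow_two, Complex.re_ofNat, Complex.im_ofNat]
        ring
      set M := 1 + 2 * c * a + c ^ 2 * b - r ^ 2 * (c ^ 2 + 2 * c * a + b) with hM
      have hdsq : ‖(1 : ℂ) + c * X‖ ^ 2 = 1 + 2 * c * a + c ^ 2 * b := by
        rw [← Complex.normSq_eq_norm_sq, hbre, ha]
        simp only [Complex.normSq_apply, Complex.add_re, Complex.add_im, Complex.mul_re,
          Complex.mul_im, Complex.ofReal_re, Complex.ofReal_im, Complex.one_re, Complex.one_im]
        ring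
      have hcX : ‖(c : ℂ) + X‖ ^ 2 = c ^ 2 + 2 * c * a + b := by
        rw [← Complex.normSq_eq_norm_sq, hbre, ha]
        simp only [Complex.normSq_apply, Complex.add_re, Complex.add_im,
          Complex.ofReal_re, Complex.ofReal_im]
        ring
      have hwzn : (1 - ‖w z‖ ^ 2) * ‖(1 : ℂ) + c * X‖ ^ 2 = M := by
        rw [hwz, norm_mul, norm_div, ← hr, mul_pow, div_pow, sub_mul, one_mul, mul_assoc,
          div_mul_cancel₀ _ (by positivity), hdsq, hcX]
      have hwz1 : ‖w z‖ < 1 := lt_of_le_of_lt (hwn z hzb) hz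
      have hwpos : 0 < 1 - ‖w z‖ ^ 2 := by nlinarith [norm_nonneg (w z)]
      have hMpos : 0 < M := by rw [← hwzn]; positivity
      have hrpos : 0 < 1 - r ^ 2 := by nlinarith
      -- |w'|
      have hw' : ‖deriv w z‖ * ‖(1 : ℂ) + c * X‖ ^ 2 * (1 - r ^ 2) ≤
          n * (1 - r ^ 2) + (1 - c ^ 2) * (r ^ 2 - b) := by
        rw [hwder.deriv, norm_div, norm_pow, div_mul_cancel₀ _ (by positivity)]
        have h1 : ‖(c : ℂ) * (1 + X ^ 2) + 2 * X + (1 - (c : ℂ) ^ 2) * (z ^ 2 * ψ')‖ ≤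
            n + (1 - c ^ 2) * (r ^ 2 * ‖ψ'‖) := by
          refine (norm_add_le _ _).trans ?_
          apply add_le_add le_rfl
          rw [norm_mul, norm_mul, norm_pow, ← hr]
          have : (1 : ℂ) - (c : ℂ) ^ 2 = ((1 - c ^ 2 : ℝ) : ℂ) := by push_cast; ring
          rw [this, Complex.norm_real, Real.norm_of_nonneg (by nlinarith)]
        have h2 : r ^ 2 * ‖ψ'‖ * (1 - r ^ 2) ≤ r ^ 2 - b := by
          have h3 : b = r ^ 2 * ‖ψ z‖ ^ 2 := by rw [hb, hX, norm_mul, mul_pow, ← hr]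
          rw [h3]
          nlinarith [sq_nonneg r]
        have h4 : 0 ≤ 1 - c ^ 2 := by nlinarith
        calc _ ≤ (n + (1 - c ^ 2) * (r ^ 2 * ‖ψ'‖)) * (1 - r ^ 2) :=
              mul_le_mul_of_nonneg_right h1 hrpos.le
          _ = n * (1 - r ^ 2) + (1 - c ^ 2) * (r ^ 2 * ‖ψ'‖ * (1 - r ^ 2)) := by ring
          _ ≤ _ := by
              have := mul_le_mul_of_nonneg_left h2 h4
              linarith
      -- hyperbolic distance
      have hzn : ‖-z‖ < 1 := by rwa [norm_neg]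
      set ζ : ℂ := (w z + -z) / (1 + conj (-z) * w z) with hζ
      have hζ1 : ‖ζ‖ < 1 := mob_norm_lt hzn hwz1
      set T := ‖ζ‖ with hT
      have hT0 : 0 ≤ T := norm_nonneg _
      have hTpos : 0 < 1 - T ^ 2 := by nlinarith
      have hden2 := den_ne hzn hwz1.le
      have hd2pos : 0 < ‖1 + conj (-z) * w z‖ := norm_pos_iff.2 hden2
      have hback : (ζ + z) / (1 + conj z * ζ) = w z := by
        have hden3 : 1 + conj z * ζ ≠ 0 := den_ne hz hζ1.le
        rw [div_eq_iff hden3]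
        have he : ζ * (1 + conj (-z) * w z) = w z + -z := by
          rw [hζ, div_mul_cancel₀ _ hden2]
        rw [map_neg] at he
        linear_combination he
      have hmob := normSq_mob (-z) (w z)
      rw [norm_neg] at hmob
      have hT2 : T ^ 2 * ‖1 + conj (-z) * w z‖ ^ 2 = ‖w z + -z‖ ^ 2 := by
        rw [hT, hζ, norm_div, div_pow, div_mul_cancel₀ _ (by positivity)]
      set q := T / Real.sqrt (1 - T ^ 2) with hq
      have hq0 : 0 ≤ q := by positivity
      have hqsq : q ^ 2 * (1 - T ^ 2) = T ^ 2 := by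
        rw [hq, div_pow, Real.sq_sqrt hTpos.le, div_mul_cancel₀ _ hTpos.ne']
      have hq3 : q ^ 2 * ((1 - r ^ 2) * (1 - ‖w z‖ ^ 2)) = ‖w z + -z‖ ^ 2 := by
        rw [← hmob, ← hT2]
        calc q ^ 2 * (‖1 + conj (-z) * w z‖ ^ 2 - T ^ 2 * ‖1 + conj (-z) * w z‖ ^ 2)
            = (q ^ 2 * (1 - T ^ 2)) * ‖1 + conj (-z) * w z‖ ^ 2 := by ring
          _ = _ := by rw [hqsq]
      have hwzdiff : ‖w z + -z‖ ^ 2 * ‖(1 : ℂ) + c * X‖ ^ 2 = r ^ 2 * (1 - c) ^ 2 * (1 - 2 * a + b) := by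
        have e1 : (w z + -z) * (1 + c * X) = -(z * ((1 - c) * (1 - X))) := by
          rw [hwz]
          field_simp
          ring
        rw [← mul_pow, ← norm_mul, e1, norm_neg, norm_mul, norm_mul, mul_pow, mul_pow, ← hr]
        have e2 : ‖(1 : ℂ) - c‖ = 1 - c := by
          have : (1 : ℂ) - c = ((1 - c : ℝ) : ℂ) := by push_cast; ring
          rw [this, Complex.norm_real, Real.norm_of_nonneg (by linarith)]
        have e3 : ‖(1 : ℂ) - X‖ ^ 2 = 1 - 2 * a + b := by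
          rw [← Complex.normSq_eq_norm_sq, hbre, ha]
          simp only [Complex.normSq_apply, Complex.sub_re, Complex.sub_im, Complex.one_re,
            Complex.one_im]
          ring
        rw [e2, e3]; ring
      have hq4 : q ^ 2 * ((1 - r ^ 2) * M) = r ^ 2 * (1 - c) ^ 2 * (1 - 2 * a + b) := by
        rw [← hwzdiff, ← hq3, ← hwzn]; ring
      have hkey := key r α c a b n q M hr0 hz hz2 hα0 hz3 hc0 hc1.le hbr hab (norm_nonneg _) hn2 hM
        hMpos hq0 hq4
      have hars := two_arsinh T hT0 hζ1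
      rw [← hq] at hars
      rw [hars] at hkey
      -- distortion
      have hdist := distortion_aux F α hF hF' hord hz hζ1
      rw [hback] at hdist
      rw [← hr, ← hT] at hdist
      set Λ := Real.log ((1 + T) / (1 - T)) with hΛ
      have hdist2 : (1 - ‖w z‖ ^ 2) * ‖deriv F (w z)‖ ≤
          (1 - r ^ 2) * ‖deriv F z‖ * Real.exp (α * Λ) := by
        apply le_of_sq_le_sq _ (by positivity)
        calc ((1 - ‖w z‖ ^ 2) * ‖deriv F (w z)‖) ^ 2
            = (1 - ‖w z‖ ^ 2) ^ 2 * ‖deriv F (w z)‖ ^ 2 := by ring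
          _ ≤ _ := hdist
          _ = ((1 - r ^ 2) * ‖deriv F z‖ * Real.exp (α * Λ)) ^ 2 := by
              have : Real.exp (2 * α * Λ) = Real.exp (α * Λ) ^ 2 := by
                rw [← Real.exp_nat_mul]; congr 1; push_cast; ring
              rw [this]; ring
      -- combine
      rw [norm_mul]
      have hE : 0 < Real.exp (α * Λ) := Real.exp_pos _
      rw [div_mul_eq_mul_div, div_le_one hMpos] at hkey
      -- multiply by (1-|w|²) * d²
      have hfin : (‖deriv F (w z)‖ * ‖deriv w z‖) * M ≤ ‖deriv F z‖ * M := by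
        calc (‖deriv F (w z)‖ * ‖deriv w z‖) * M
            = ((1 - ‖w z‖ ^ 2) * ‖deriv F (w z)‖) * (‖deriv w z‖ * ‖(1 : ℂ) + c * X‖ ^ 2) := by
              rw [← hwzn]; ring
          _ ≤ ((1 - r ^ 2) * ‖deriv F z‖ * Real.exp (α * Λ)) *
                (‖deriv w z‖ * ‖(1 : ℂ) + c * X‖ ^ 2) :=
              mul_le_mul_of_nonneg_right hdist2 (by positivity)
          _ = ‖deriv F z‖ * ((‖deriv w z‖ * ‖(1 : ℂ) + c * X‖ ^ 2 * (1 - r ^ 2)) *
                Real.exp (α * Λ)) := by ring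
          _ ≤ ‖deriv F z‖ * ((n * (1 - r ^ 2) + (1 - c ^ 2) * (r ^ 2 - b)) *
                Real.exp (α * Λ)) := by
              apply mul_le_mul_of_nonneg_left _ (norm_nonneg _)
              exact mul_le_mul_of_nonneg_right hw' hE.le
          _ ≤ ‖deriv F z‖ * M := mul_le_mul_of_nonneg_left hkey (norm_nonneg _)
      exact le_of_mul_le_mul_right hfin hMpos

theorem rho_facts (α r : ℝ) (hα : 1 ≤ α) (hr0 : 0 ≤ r)
    (hr : r < α + 1 - Real.sqrt (α ^ 2 + 2 * α)) :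
    r < 1 ∧ 4 * r ≤ 1 + r ^ 2 ∧ 2 * r * α ≤ (1 - r) ^ 2 := by
  set s := Real.sqrt (α ^ 2 + 2 * α) with hs
  have hs0 : 0 ≤ s := Real.sqrt_nonneg _
  have hs2 : s ^ 2 = α ^ 2 + 2 * α := Real.sq_sqrt (by nlinarith)
  have h1 : 0 < (α + 1 - s - r) * (α + 1 + s - r) := by
    apply mul_pos <;> linarith
  have h2 : 2 * (α + 1) * r ≤ 1 + r ^ 2 := by nlinarith
  have hsα : α ≤ s := by
    apply le_of_sq_le_sq _ hs0
    rw [hs2]; nlinarith
  refine ⟨by linarith, by nlinarith, by nlinarith⟩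

end Run7.h196.Camp
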