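import Mathlib
import Pool.Agent.Run7.h196.Camp.Main

set_option autoImplicit false

/-!
# Campbell's conjecture on majorization of derivatives under subordination

For every `α ≥ 1`: if `F` is locally univalent of order at most `α`, `f` is subordinate to `F` and
`f'(0) ≥ 0`, then `|f'(z)| ≤ |F'(z)|` for `|z| < α + 1 - sqrt (α ^ 2 + 2 α)`.
-/

namespace Run7.h196.Camp.Statement

open Complex Metric
open scoped ComplexConjugate

/-- The class `U_α`: `F` is analytic and locally univalent in the unit disc, `F(0) = 0`,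
`F'(0) = 1`, and its order `sup_z |-conj z + (1-|z|²) F''(z) / (2 F'(z))|` is at most `α`. -/
def InU (α : ℝ) (F : ℂ → ℂ) : Prop :=
  DifferentiableOn ℂ F (ball 0 1) ∧ (∀ z ∈ ball (0 : ℂ) 1, deriv F z ≠ 0) ∧
    F 0 = 0 ∧ deriv F 0 = 1 ∧
    ∀ z ∈ ball (0 : ℂ) 1,
      ‖-(conj z) + (1 - (‖z‖ : ℂ) ^ 2) * deriv (deriv F) z / (2 * deriv F z)‖ ≤ α

/-- `f` is subordinate to `F` in the unit disc: `f = F ∘ w` there, for some analytic `w` with
`|w(z)| ≤ |z|`. -/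
def Subordinate (f F : ℂ → ℂ) : Prop :=
  ∃ w : ℂ → ℂ, DifferentiableOn ℂ w (ball 0 1) ∧ (∀ z ∈ ball (0 : ℂ) 1, ‖w z‖ ≤ ‖z‖) ∧
    ∀ z ∈ ball (0 : ℂ) 1, f z = F (w z)

/-- Campbell's radius `ρ(α) = α + 1 - sqrt (α ^ 2 + 2 α)`. -/
noncomputable def rho (α : ℝ) : ℝ := α + 1 - Real.sqrt (α ^ 2 + 2 * α)

theorem campbell :
    ∀ α : ℝ, 1 ≤ α → ∀ F f : ℂ → ℂ, InU α F → Subordinate f F →
      0 ≤ (deriv f 0).re → (deriv f 0).im = 0 →
      ∀ z : ℂ, ‖z‖ < rho α → ‖deriv f z‖ ≤ ‖deriv F z‖ := by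
  rintro α hα F f ⟨hF, hF', hF0, hF1, hord⟩ ⟨w, hw, hwn, hfw⟩ hre him z hz
  obtain ⟨h1, h2, h3⟩ := Run7.h196.Camp.rho_facts α ‖z‖ hα (norm_nonneg z) hz
  have hzb : z ∈ ball (0 : ℂ) 1 := by simpa using h1
  have h0b : (0 : ℂ) ∈ ball (0 : ℂ) 1 := by simp
  have hder : ∀ ζ ∈ ball (0 : ℂ) 1, deriv f ζ = deriv F (w ζ) * deriv w ζ := by
    intro ζ hζ
    have hwζ : w ζ ∈ ball (0 : ℂ) 1 := by
      rw [mem_ball_zero_iff] at hζ ⊢
      exact lt_of_le_of_lt (hwn ζ (by simpa using hζ)) hζ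
    have e : f =ᶠ[nhds ζ] fun s => F (w s) := by
      filter_upwards [isOpen_ball.mem_nhds hζ] with s hs using hfw s hs
    rw [e.deriv_eq]
    have d1 : HasDerivAt w (deriv w ζ) ζ :=
      (hw.differentiableAt (isOpen_ball.mem_nhds hζ)).hasDerivAt
    have d2 : HasDerivAt F (deriv F (w ζ)) (w ζ) :=
      (hF.differentiableAt (isOpen_ball.mem_nhds hwζ)).hasDerivAt
    exact (d2.comp ζ d1).deriv
  have hw0 : w 0 = 0 := by
    have := hwn 0 h0b
    simpa using this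
  have hc : deriv w 0 = (((deriv f 0).re : ℝ) : ℂ) := by
    have h := hder 0 h0b
    rw [hw0, hF1, one_mul] at h
    rw [← h]
    apply Complex.ext
    · simp
    · simp [him]
  rw [hder z hzb]
  exact Run7.h196.Camp.campbell_point F w α (by linarith) hF hF' hord hw hwn _ hre hc h1 h2 h3

end Run7.h196.Camp.Statement
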